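import Pool.Agent.Helper980.Polar.Two
import Pool.Agent.Helper980.Prikry.GNeg

set_option autoImplicit false

/-!
# The generalized continuum hypothesis and all cardinals are preserved by small forcing notions
which add no short functions
-/

namespace Pool.Agent.Helper980.G

open Cardinal Pool.Agent.Helper669.Forcing Pool.Agent.Helper669.K

section

variable {P : Type} [Preorder P]

theorem decide_subset {X : Type} {p : P} (A : X → Set P)
    (hnn : ∀ (Y : Type) (R : X → Y → Set P), p ∈ IsFun R →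
      ∃ q ≤ p, ∃ f : X → Y, ∀ a, q ∈ meets (R a (f a))) :
    ∃ q ≤ p, ∀ x, q ∈ meets (A x) ∨ q ∈ fnot (meets (A x)) := by
  classical
  have key : ∀ (x : X) (r : P), r ∈ meets (A x) → r ∈ meets (fnot (meets (A x))) → False := by
    intro x r h h'
    obtain ⟨s, hs, t, ht, hst⟩ := h' r le_rfl
    exact ht s hst (down_meets _ _ h _ hs)
  let R : X → Bool → Set P := fun x b => if b = true then A x else fnot (meets (A x))
  have hRt : ∀ x, R x true = A x := fun x => if_pos rfl
  have hRf : ∀ x, R x false = fnot (meets (A x)) := fun x => if_neg (by simp)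
  obtain ⟨q, hq, f, hf⟩ := hnn Bool R (by
    refine ⟨fun x => mem_fex.2 fun r _ => ?_, fun x b b' => mem_fimp.2 fun r _ hr =>
      ⟨r, le_rfl, ?_⟩⟩
    · by_cases h : ∃ s ≤ r, s ∈ meets (A x)
      · obtain ⟨s, hs, h1⟩ := h
        exact ⟨s, hs, true, by rw [hRt]; exact h1⟩
      · push Not at h
        refine ⟨r, le_rfl, false, ?_⟩
        rw [hRf]
        exact meets_of_mem h
    · obtain ⟨h1, h2⟩ := hr
      show b = b'
      cases b <;> cases b'
      · rfl
      · rw [hRf] at h1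
        rw [hRt] at h2
        exact (key x r h2 h1).elim
      · rw [hRt] at h1
        rw [hRf] at h2
        exact (key x r h1 h2).elim
      · rfl)
  refine ⟨q, hq, fun x => ?_⟩
  have h1 := hf x
  rcases Bool.eq_false_or_eq_true (f x) with h2 | h2
  · rw [h2, hRt] at h1
    exact Or.inl h1
  · rw [h2, hRf] at h1
    exact Or.inr fun s hs h3 => key x s h3 (down_meets _ _ h1 _ hs)

/-- preservation of GCH and of all cardinals -/
theorem package {θ : Cardinal.{0}} (hθ : ℵ₀ ≤ θ)
    (hG : ∀ ν : Cardinal.{0}, ℵ₀ ≤ ν → 2 ^ ν = Order.succ ν) (hP : #P ≤ 2 ^ θ)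
    (hnn : ∀ (A Y : Type) (_ : #A ≤ θ) (R : A → Y → Set P) (p : P), p ∈ IsFun R →
      ∃ q ≤ p, ∃ f : A → Y, ∀ a, q ∈ meets (R a (f a))) (p : P) :
    p ∈ CardinalsPreserved.{0, 0} P ∧ p ∈ ForcesGCH P := by
  have hP' : #P ≤ Order.succ θ := by rwa [hG θ hθ] at hP
  have hs0 : ℵ₀ ≤ Order.succ θ := hθ.trans (Order.le_succ θ)
  have hcc : ∀ Z : Set P, (∀ p ∈ Z, ∀ q ∈ Z, p ≠ q → ¬ ∃ r, r ≤ p ∧ r ≤ q) →
      #Z ≤ Order.succ θ := fun Z _ => (mk_set_le Z).trans hP'
  refine ⟨cardinals_preserved hs0 (fun ν h => Order.succ_le_of_lt h) hcc hnn p, ?_⟩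
  intro X Y hX
  rcases le_or_gt #Y #X with h | h
  · exact for_left (down_fex _) (sizeLe_of_le h p)
  · have hX0 : ℵ₀ ≤ #X := aleph0_le_mk X
    have hY : 2 ^ #X ≤ #Y := by
      rw [hG _ hX0]
      exact Order.succ_le_of_lt h
    refine for_right (down_fex _) ?_
    rcases le_or_gt #X θ with h3 | h3
    · exact powerLe_small hY (fun A p => decide_subset A (fun Y R hp => hnn X Y h3 R p hp)) p
    · exact powerLe_big hs0 hcc (hP'.trans (cantor _).le) (Order.succ_le_of_lt h3) hY p

/-- from functions defined on one set of size `θ` to all smaller sets -/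
theorem noNew_all {θ : Cardinal.{0}} (h : Polar.NoNewFunctions P θ.ord.ToType)
    (A Y : Type) (hA : #A ≤ θ) (R : A → Y → Set P) (p : P) (hp : p ∈ IsFun R) :
    ∃ q ≤ p, ∃ f : A → Y, ∀ a, q ∈ meets (R a (f a)) := by
  classical
  rcases isEmpty_or_nonempty A with hE | hE
  · exact ⟨p, le_rfl, fun a => (hE.false a).elim, fun a => (hE.false a).elim⟩
  obtain ⟨j⟩ : #A ≤ #(θ.ord.ToType) := by simpa using hA
  obtain ⟨q, hq, f, hf⟩ := h Y (fun i => R (Function.invFun j i)) p
    ⟨fun i => hp.1 _, fun i => hp.2 _⟩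
  refine ⟨q, hq, fun a => f (j a), fun a => ?_⟩
  have h1 := hf (j a)
  have h2 : Function.invFun j (j a) = a := Function.leftInverse_invFun j.injective a
  rw [h2] at h1
  exact h1

end

section

variable (P : Type) [Preorder P]

/-- The relation `(|K|, |S|) → (|K|, |K|; |S|, |I|)` in the extension: for every partition of
`K × S` into two classes (`c` names the second one) there are `A ⊆ K` with at least `|K|` elements
and `B ⊆ S` with at least `|S|` elements such that `A × B` is contained in the first class, or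
`A ⊆ K` with at least `|K|` elements and `B ⊆ S` with at least `|I|` elements such that `A × B` is
contained in the second class. -/
def RelationR (K S I : Type) : Set P :=
  fall fun c : K → S → Set P => for'
    (fex fun A : K → Set P => fex fun B : S → Set P => fand (AtLeast K A) (fand (AtLeast S B)
      (fall fun x => fall fun y =>
        fimp (fand (meets (A x)) (meets (B y))) (fnot (meets (c x y))))))
    (fex fun A : K → Set P => fex fun B : S → Set P => fand (AtLeast K A) (fand (AtLeast I B)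
      (fall fun x => fall fun y => fimp (fand (meets (A x)) (meets (B y))) (meets (c x y)))))

/-- The relation `(|S|, |S|) → (|S|, |I|; |T|, |T|)` in the extension: for every partition of
`S × S` into two classes (`c` names the second one) there are `A ⊆ S` with at least `|S|` elements
and `B ⊆ S` with at least `|T|` elements such that `A × B` is contained in the first class, or
`A ⊆ S` with at least `|I|` elements and `B ⊆ S` with at least `|T|` elements such that `A × B` is
contained in the second class. -/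
def RelationS (S T I : Type) : Set P :=
  fall fun c : S → S → Set P => for'
    (fex fun A : S → Set P => fex fun B : S → Set P => fand (AtLeast S A) (fand (AtLeast T B)
      (fall fun x => fall fun y =>
        fimp (fand (meets (A x)) (meets (B y))) (fnot (meets (c x y))))))
    (fex fun A : S → Set P => fex fun B : S → Set P => fand (AtLeast I A) (fand (AtLeast T B)
      (fall fun x => fall fun y => fimp (fand (meets (A x)) (meets (B y))) (meets (c x y)))))

variable {P}

theorem atLeast_conv {I X : Type} {B : X → Set P} {p : P}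
    (h : p ∈ AtLeast I B) : p ∈ Polar.AtLeast I (fun x => Polar.meets (B x)) := by
  refine Polar.mem_fex.2 fun q hq => ?_
  obtain ⟨r, hr, R, h1, h2, h3⟩ := mem_fex.1 h q hq
  exact ⟨r, hr, R, ⟨h1, h2⟩, h3⟩

theorem not_relationR {K S I : Type} (h : ∀ p : P, p ∈ Polar.NotR P K S I) (p : P) :
    p ∈ fnot (RelationR P K S I) := by
  intro q _ hq
  obtain ⟨r, hr, F, h1, h2⟩ := Polar.mem_fex.1 (h q) q le_rfl
  have hF := down_fnot _ _ (hq F) r hr
  obtain ⟨s, hs, h3⟩ := mem_for hF
  rcases h3 with h3 | h3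
  · obtain ⟨t, ht, A, h3⟩ := mem_fex.1 h3 s le_rfl
    obtain ⟨u, hu, B, hA, hB, h3⟩ := mem_fex.1 h3 t le_rfl
    have hA' : u ∈ AtLeast K A := hA
    have hB' : u ∈ AtLeast S B := hB
    obtain ⟨v, hv, h4⟩ := Polar.mem_fimp.1 (h1 A B) u (hu.trans (ht.trans hs))
      ⟨atLeast_conv hA', atLeast_conv hB'⟩
    exact h4 v le_rfl (fun x y => down_fimp _ _ _ (h3 x y) _ hv)
  · obtain ⟨t, ht, A, h3⟩ := mem_fex.1 h3 s le_rfl
    obtain ⟨u, hu, B, hA, hB, h3⟩ := mem_fex.1 h3 t le_rfl
    have hA' : u ∈ AtLeast K A := hA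
    have hB' : u ∈ AtLeast I B := hB
    obtain ⟨v, hv, h4⟩ := Polar.mem_fimp.1 (h2 A B) u (hu.trans (ht.trans hs))
      ⟨atLeast_conv hA', atLeast_conv hB'⟩
    exact h4 v le_rfl (fun x y => down_fimp _ _ _ (h3 x y) _ hv)

theorem not_relationS {S T I : Type} (h : ∀ p : P, p ∈ Polar.NotPolar P S T I) (p : P) :
    p ∈ fnot (RelationS P S T I) := by
  intro q _ hq
  obtain ⟨r, hr, F, h1, h2⟩ := Polar.mem_fex.1 (h q) q le_rfl
  have hF := down_fnot _ _ (hq F) r hr
  obtain ⟨s, hs, h3⟩ := mem_for hF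
  rcases h3 with h3 | h3
  · obtain ⟨t, ht, A, h3⟩ := mem_fex.1 h3 s le_rfl
    obtain ⟨u, hu, B, hA, hB, h3⟩ := mem_fex.1 h3 t le_rfl
    have hA' : u ∈ AtLeast S A := hA
    have hB' : u ∈ AtLeast T B := hB
    obtain ⟨v, hv, h4⟩ := Polar.mem_fimp.1 (h1 A B) u (hu.trans (ht.trans hs))
      ⟨atLeast_conv hA', atLeast_conv hB'⟩
    exact h4 v le_rfl (fun x y => down_fimp _ _ _ (h3 x y) _ hv)
  · obtain ⟨t, ht, A, h3⟩ := mem_fex.1 h3 s le_rfl
    obtain ⟨u, hu, B, hA, hB, h3⟩ := mem_fex.1 h3 t le_rfl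
    have hA' : u ∈ AtLeast I A := hA
    have hB' : u ∈ AtLeast T B := hB
    obtain ⟨v, hv, h4⟩ := Polar.mem_fimp.1 (h2 A B) u (hu.trans (ht.trans hs))
      ⟨atLeast_conv hA', atLeast_conv hB'⟩
    exact h4 v le_rfl (fun x y => down_fimp _ _ _ (h3 x y) _ hv)

end

/-- For MP_bc45ee_lc. -/
theorem forcedR (hG : ∀ ν : Cardinal.{0}, ℵ₀ ≤ ν → 2 ^ ν = Order.succ ν) (κ : Cardinal.{0})
    (h0 : ℵ₀ < κ) (h1 : κ.ord.cof = ℵ₀) :
    ∃ (P : Type) (_ : Preorder P), Nonempty P ∧ ∀ p : P,
      p ∈ CardinalsPreserved.{0, 0} P ∧ p ∈ ForcesGCH P ∧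
      p ∈ fnot (RelationR P κ.ord.ToType (Order.succ κ).ord.ToType
        (ℵ_ 1 : Cardinal.{0}).ord.ToType) := by
  obtain ⟨P, hP, hne, hc, h3, _, h5⟩ := Polar.exists_forcingR κ h0 h1
  refine ⟨P, hP, hne, fun p => ?_⟩
  have h6 := package h0.le hG hc (noNew_all h3) p
  exact ⟨h6.1, h6.2, not_relationR h5 p⟩

/-- For MP_d40573_lc. -/
theorem forcedS (hG : ∀ ν : Cardinal.{0}, ℵ₀ ≤ ν → 2 ^ ν = Order.succ ν) (lam : Cardinal.{0})
    (h0 : ℵ₀ < lam) (h1 : lam.ord.cof = ℵ₀) :
    ∃ (P : Type) (_ : Preorder P), Nonempty P ∧ ∀ p : P,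
      p ∈ CardinalsPreserved.{0, 0} P ∧ p ∈ ForcesGCH P ∧
      p ∈ fnot (RelationS P (Order.succ lam).ord.ToType lam.ord.ToType
        (ℵ_ 1 : Cardinal.{0}).ord.ToType) := by
  obtain ⟨P, hP, hne, hc, h3, _, h5⟩ := Polar.exists_forcing lam h0 h1
  refine ⟨P, hP, hne, fun p => ?_⟩
  have h6 := package h0.le hG hc (noNew_all h3) p
  exact ⟨h6.1, h6.2, not_relationS h5 p⟩

end Pool.Agent.Helper980.G
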