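import Mathlib

/-!
# A polarized partition relation on the successor of a singular cardinal of cofinality `ω`

A forcing notion which adds no new functions defined on the singular cardinal `λ` of countable
cofinality and which adds a partition of `λ⁺ × λ⁺` witnessing that the polarized relation
`(λ⁺, λ⁺) → (λ⁺, ℵ₁; λ, λ)` fails.

The conditions describe initial segments of three things: a subadditive and locally small
function `d : [λ⁺]² → cf λ`, an enumeration `A ξ` of the subsets of `λ⁺` of size `λ`, and sets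
`N b n` (`b < λ⁺`, `n < cf λ`).  Stage `b` puts, for every enumerated set `A ξ ⊆ b` of size `λ`
with `ξ < b`, an element of `A ξ` into `N b n`, where `n` is the level `d(ξ, b)`; this element is
outside all sets `N a m` with `a < b`, `d(a, b) ≤ n` and `m ≤ n`.  The partition puts `(b, y)` into
the class `Δ₁` iff `y` is in `N b n` for some `n`.

The forcing language and the technique of building conditions which meet `λ` many dense sets
follow the file `Pool/Agent/Helper72/SetMapping.lean`.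
-/

namespace Pool.Agent.Helper980.Polar
open Cardinal Ordinal Set

universe u v w

section

theorem exists_rec {I : Type u} {X : Type v} [LinearOrder I] [WellFoundedLT I]
    (R : (i : I) → ((j : I) → j < i → X) → X → Prop)
    (h : ∀ i (f : (j : I) → j < i → X),
      (∀ j (hj : j < i), R j (fun k hk => f k (hk.trans hj)) (f j hj)) → ∃ x, R i f x) :
    ∃ F : I → X, ∀ i, R i (fun j _ => F j) (F i) := by
  classical
  rcases isEmpty_or_nonempty I with hI | hI
  · exact ⟨fun i => (hI.false i).elim, fun i => (hI.false i).elim⟩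
  have hX : Nonempty X := by
    obtain ⟨b, _, hb⟩ := (wellFounded_lt (α := I)).has_min Set.univ Set.univ_nonempty
    obtain ⟨x, _⟩ := h b (fun j hj => (hb j trivial hj).elim) (fun j hj => (hb j trivial hj).elim)
    exact ⟨x⟩
  let G : (i : I) → ((j : I) → j < i → X) → X := fun i f =>
    if h : ∃ x, R i f x then h.choose else Classical.arbitrary X
  let F : I → X := (wellFounded_lt (α := I)).fix G
  have hF : ∀ i, F i = G i (fun j _ => F j) := fun i => WellFounded.fix_eq _ G i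
  refine ⟨F, fun i => ?_⟩
  induction i using (wellFounded_lt (α := I)).induction with
  | _ i ih =>
    have h1 : ∃ x, R i (fun j _ => F j) x := h i _ (fun j hj => ih j hj)
    have h2 : F i = h1.choose := by
      rw [hF i]
      exact dif_pos h1
    rw [h2]
    exact h1.choose_spec

end

section

/-- a sequence of infinite cardinals cofinal in the limit cardinal `lam` -/
structure Setup {M : Type u} [LinearOrder M] (lam : Cardinal.{u}) (c : M → Cardinal.{u}) : Prop where
  inf : ∀ n, ℵ₀ ≤ c n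
  mono : Monotone c
  lt : ∀ n, c n < lam
  cof : ∀ μ < lam, ∃ n, μ ≤ c n
  lim : ∀ μ < lam, Order.succ μ < lam

theorem Setup.inf_lam {M : Type u} [LinearOrder M] {lam : Cardinal.{u}} {c : M → Cardinal.{u}}
    [OrderBot M] (hS : Setup lam c) : ℵ₀ ≤ lam := (hS.inf ⊥).trans (hS.lt ⊥).le

/-- the well-ordered set of the ordinals below `lam⁺` -/
abbrev Lam (lam : Cardinal.{u}) : Type u := (Order.succ lam).ord.ToType

theorem mk_Iio_ord_lt {μ : Cardinal.{u}} (i : μ.ord.ToType) : #(Iio i) < μ := by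
  simpa using mk_Iio_lt i

section
variable {lam : Cardinal.{u}}

theorem mk_Iio_le (a : Lam lam) : #(Iio a) ≤ lam := by
  have h : #(Iio a) < Order.succ lam := mk_Iio_ord_lt a
  exact Order.lt_succ_iff.1 h

theorem mk_Iic_le (hl : ℵ₀ ≤ lam) (a : Lam lam) : #(Iic a) ≤ lam := by
  have : Iic a = insert a (Iio a) := by
    ext x
    simp [le_iff_eq_or_lt]
  rw [this]
  refine (mk_insert_le).trans ?_
  exact add_le_of_le hl (mk_Iio_le a) (one_le_aleph0.trans hl)

theorem mk_Lam : #(Lam lam) = Order.succ lam := by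
  change #((Order.succ lam).ord.ToType) = _
  simp

theorem exists_bound (hl : ℵ₀ ≤ lam) {ι : Type u} (hι : #ι ≤ lam) (f : ι → Lam lam) :
    ∃ b : Lam lam, ∀ i, f i < b := by
  by_contra hc
  push Not at hc
  have h1 : (Set.univ : Set (Lam lam)) ⊆ ⋃ n, Set.Iic (f n) := by
    intro a _
    obtain ⟨n, hn⟩ := hc a
    exact Set.mem_iUnion.2 ⟨n, hn⟩
  have h2 : #(⋃ n, Set.Iic (f n) : Set (Lam lam)) ≤ lam := by
    refine (mk_iUnion_le_sum_mk.trans (sum_le_mk_mul_iSup _)).trans ?_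
    refine mul_le_of_le hl hι ?_
    exact ciSup_le' fun v => mk_Iic_le hl _
  have h3 := (mk_le_mk_of_subset h1).trans h2
  rw [mk_univ, mk_Lam] at h3
  exact absurd h3 (not_le.2 (Order.lt_succ lam))

end

/-- The data attached to an element of `Lam lam`. -/
structure Dat (X M : Type u) where
  /-- the levels of the smaller elements -/
  d : X → M
  /-- a set enumerated at this stage -/
  A : Set X
  /-- the sets of neighbours of the different levels -/
  N : M → Set X

variable {M : Type u} [LinearOrder M] [OrderBot M] {lam : Cardinal.{u}} {c : M → Cardinal.{u}}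

/-- no data -/
def Dat.zero {X : Type u} : Dat X M := ⟨fun _ => ⊥, ∅, fun _ => ∅⟩

/-- The data are as wanted at stage `b`, up to the second inequality for the levels. -/
structure Good0 (c : M → Cardinal.{u}) (x : Lam lam → Dat (Lam lam) M) (b : Lam lam) :
    Prop where
  d0 : (x b).d b = ⊥
  d1 : ∀ n, #{a | a ≤ b ∧ (x b).d a ≤ n} ≤ c n
  d2 : ∀ a g, a ≤ g → g ≤ b → (x g).d a ≤ max ((x b).d a) ((x b).d g)
  n1 : ∀ n, ∀ y ∈ (x b).N n, y < b
  n2 : ∀ n, ∀ y ∈ (x b).N n, ∀ a < b, (x b).d a ≤ n → ∀ m ≤ n, y ∉ (x a).N m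
  n3 : ∀ n, #((x b).N n) ≤ c n
  n4 : ∀ ξ < b, (x ξ).A ⊆ Iio b → lam ≤ #(x ξ).A → ∃ n, ∃ y ∈ (x ξ).A, y ∈ (x b).N n
  dj : ∀ a, b < a → (x b).d a = ⊥
  a1 : #(x b).A ≤ lam

/-- The data are as wanted at stage `b`. -/
structure Good (c : M → Cardinal.{u}) (x : Lam lam → Dat (Lam lam) M) (b : Lam lam) : Prop
    extends Good0 c x b where
  d3 : ∀ a g, a ≤ g → g ≤ b → (x b).d a ≤ max ((x g).d a) ((x b).d g)

theorem Good0.congr {x y : Lam lam → Dat (Lam lam) M} {b : Lam lam} (h : Good0 c x b)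
    (hxy : ∀ a ≤ b, y a = x a) : Good0 c y b := by
  have hb := hxy b le_rfl
  refine ⟨?_, ?_, ?_, ?_, ?_, ?_, ?_, ?_, ?_⟩
  · rw [hb]; exact h.d0
  · rw [hb]; exact h.d1
  · intro a g h1 h2
    rw [hb, hxy g h2]; exact h.d2 a g h1 h2
  · rw [hb]; exact h.n1
  · intro n z hz a ha
    rw [hb] at hz ⊢
    rw [hxy a ha.le]
    exact h.n2 n z hz a ha
  · rw [hb]; exact h.n3
  · intro ξ hξ
    rw [hb, hxy ξ hξ.le]
    exact h.n4 ξ hξ
  · rw [hb]; exact h.dj
  · rw [hb]; exact h.a1

theorem Good.congr {x y : Lam lam → Dat (Lam lam) M} {b : Lam lam} (h : Good c x b)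
    (hxy : ∀ a ≤ b, y a = x a) : Good c y b := by
  refine ⟨h.toGood0.congr hxy, ?_⟩
  intro a g h1 h2
  rw [hxy b le_rfl, hxy g h2]; exact h.d3 a g h1 h2

/-- the data can be prolonged by one stage -/
theorem attach0 [Countable M] (hS : Setup lam c) (x : Lam lam → Dat (Lam lam) M) (b : Lam lam)
    (hx : ∀ a < b, Good0 c x a) (D : Lam lam → M)
    (hD1 : ∀ n, #{a | a < b ∧ D a ≤ n} ≤ c n)
    (hD2 : ∀ a g, a ≤ g → g < b → (x g).d a ≤ max (D a) (D g)) (A' : Set (Lam lam))
    (hA' : #A' ≤ lam) :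
    ∃ y : Lam lam → Dat (Lam lam) M, (∀ a < b, y a = x a) ∧ Good0 c y b ∧ (y b).A = A' ∧
      ∀ a < b, (y b).d a = D a := by
  classical
  -- the new points
  have key : ∀ i : {ξ : Lam lam // ξ < b ∧ (x ξ).A ⊆ Iio b ∧ lam ≤ #(x ξ).A},
      ∃ z ∈ (x i.1).A, ∀ a < b, D a ≤ D i.1 → ∀ m ≤ D i.1, z ∉ (x a).N m := by
    rintro ⟨ξ, h1, h2, h3⟩
    by_contra hc
    push Not at hc
    have h4 : (x ξ).A ⊆ ⋃ a : {a | a < b ∧ D a ≤ D ξ}, ⋃ m : Iic (D ξ), (x a.1).N m.1 := by
      intro z hz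
      obtain ⟨a, ha, ha', m, hm, hzm⟩ := hc z hz
      exact mem_iUnion.2 ⟨⟨a, ha, ha'⟩, mem_iUnion.2 ⟨⟨m, hm⟩, hzm⟩⟩
    have h5 : #(x ξ).A ≤ c (D ξ) := by
      refine (mk_le_mk_of_subset h4).trans ?_
      refine (mk_iUnion_le_sum_mk.trans (sum_le_mk_mul_iSup _)).trans ?_
      refine mul_le_of_le (hS.inf _) (hD1 _) ?_
      refine ciSup_le' fun a => ?_
      refine (mk_iUnion_le_sum_mk.trans (sum_le_mk_mul_iSup _)).trans ?_
      refine mul_le_of_le (hS.inf _) ((mk_le_aleph0_iff.2 inferInstance).trans (hS.inf _)) ?_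
      exact ciSup_le' fun m => ((hx a.1 a.2.1).n3 m.1).trans (hS.mono m.2)
    exact absurd (h3.trans h5) (not_le.2 (hS.lt _))
  choose t ht1 ht2 using key
  let y : Lam lam → Dat (Lam lam) M := Function.update x b
    { d := fun a => if a < b then D a else ⊥
      A := A'
      N := fun n => {z | ∃ i, t i = z ∧ D i.1 = n} }
  have hy : ∀ a < b, y a = x a := fun a ha => Function.update_of_ne ha.ne _ _
  have hyb : y b = { d := fun a => if a < b then D a else ⊥
                     A := A'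
                     N := fun n => {z | ∃ i, t i = z ∧ D i.1 = n} } := Function.update_self _ _ _
  have hyd : ∀ a < b, (y b).d a = D a := by
    intro a ha
    rw [hyb]
    exact if_pos ha
  have hyd0 : (y b).d b = ⊥ := by
    rw [hyb]
    exact if_neg (lt_irrefl b)
  have hyN : ∀ n, (y b).N n = {z | ∃ i, t i = z ∧ D i.1 = n} := by
    intro n
    rw [hyb]
  have ht3 : ∀ i, t i < b := fun i => i.2.2.1 (ht1 i)
  refine ⟨y, hy, ⟨hyd0, ?_, ?_, ?_, ?_, ?_, ?_, ?_, ?_⟩, ?_, hyd⟩
  · intro n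
    have h1 : {a | a ≤ b ∧ (y b).d a ≤ n} ⊆ insert b {a | a < b ∧ D a ≤ n} := by
      rintro a ⟨h1, h2⟩
      rcases h1.eq_or_lt with h | h
      · exact Or.inl h
      · exact Or.inr ⟨h, by rwa [hyd a h] at h2⟩
    refine (mk_le_mk_of_subset h1).trans (mk_insert_le.trans ?_)
    exact add_le_of_le (hS.inf n) (hD1 n) (one_le_aleph0.trans (hS.inf n))
  · intro a g h1 h2
    rcases h2.eq_or_lt with rfl | h
    · exact le_max_left _ _
    · rw [hy g h, hyd g h, hyd a (h1.trans_lt h)]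
      exact hD2 a g h1 h
  · intro n z hz
    rw [hyN] at hz
    obtain ⟨i, rfl, _⟩ := hz
    exact ht3 i
  · intro n z hz a ha hda m hm
    rw [hyN] at hz
    obtain ⟨i, rfl, rfl⟩ := hz
    rw [hyd a ha] at hda
    rw [hy a ha]
    exact ht2 i a ha hda m hm
  · intro n
    rw [hyN]
    have h1 : {z | ∃ i, t i = z ∧ D i.1 = n} ⊆
        range (fun a : {a | a < b ∧ D a ≤ n} => if h : (a.1 < b ∧ (x a.1).A ⊆ Iio b ∧
          lam ≤ #(x a.1).A) then t ⟨a.1, h⟩ else b) := by
      rintro z ⟨i, rfl, hi⟩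
      refine ⟨⟨i.1, i.2.1, hi.le⟩, ?_⟩
      exact dif_pos i.2
    exact (mk_le_mk_of_subset h1).trans (mk_range_le.trans (hD1 n))
  · intro ξ hξ
    rw [hy ξ hξ]
    intro h1 h2
    refine ⟨D ξ, t ⟨ξ, hξ, h1, h2⟩, ht1 ⟨ξ, hξ, h1, h2⟩, ?_⟩
    rw [hyN]
    exact ⟨_, rfl, rfl⟩
  · intro a ha
    rw [hyb]
    exact if_neg (not_lt.2 ha.le)
  · rw [hyb]
    exact hA'
  · rw [hyb]

theorem attach [Countable M] (hS : Setup lam c) (x : Lam lam → Dat (Lam lam) M) (b : Lam lam)
    (hx : ∀ a < b, Good c x a) (D : Lam lam → M)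
    (hD1 : ∀ n, #{a | a < b ∧ D a ≤ n} ≤ c n)
    (hD2 : ∀ a g, a ≤ g → g < b → (x g).d a ≤ max (D a) (D g))
    (hD3 : ∀ a g, a ≤ g → g < b → D a ≤ max ((x g).d a) (D g)) (A' : Set (Lam lam))
    (hA' : #A' ≤ lam) :
    ∃ y : Lam lam → Dat (Lam lam) M, (∀ a < b, y a = x a) ∧ Good c y b ∧ (y b).A = A' ∧
      ∀ a < b, (y b).d a = D a := by
  obtain ⟨y, hy, h1, h2, hyd⟩ := attach0 hS x b (fun a ha => (hx a ha).toGood0) D hD1 hD2 A' hA'
  refine ⟨y, hy, ⟨h1, ?_⟩, h2, hyd⟩
  intro a g h3 h4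
  rcases h4.eq_or_lt with rfl | h
  · exact le_max_left _ _
  · rw [hy g h, hyd g h, hyd a (h3.trans_lt h)]
    exact hD3 a g h3 h

/-- Fewer than `λ` many points belong to all the sets attached to the elements of an uncountable
set. -/
theorem small_inter [WellFoundedLT M] [Countable M] (hS : Setup lam c)
    (x : Lam lam → Dat (Lam lam) M) (top : Lam lam) (hx : ∀ b ≤ top, Good0 c x b)
    (H : Set (Lam lam)) (hH : H ⊆ Iic top) (hbig : ℵ₀ < #H) :
    #{y | ∀ a ∈ H, ∃ n, y ∈ (x a).N n} < lam := by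
  classical
  -- a level
  obtain ⟨n, hn⟩ : ∃ n : M, {a | a ∈ H ∧ (x top).d a ≤ n}.Infinite := by
    by_contra hc
    push Not at hc
    have h1 : H ⊆ ⋃ n : M, {a | a ∈ H ∧ (x top).d a ≤ n} := fun a ha =>
      mem_iUnion.2 ⟨_, ha, le_rfl⟩
    have h2 : (⋃ n : M, {a | a ∈ H ∧ (x top).d a ≤ n}).Countable :=
      countable_iUnion fun n => (hc n).countable
    exact absurd ((mk_le_mk_of_subset h1).trans (mk_le_aleph0_iff.2 h2.to_subtype))
      (not_le.2 hbig)
  -- an increasing sequence of this level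
  obtain ⟨s, hs, hsm⟩ : ∃ s : ℕ → Lam lam, (∀ i, s i ∈ {a | a ∈ H ∧ (x top).d a ≤ n}) ∧
      StrictMono s := by
    obtain ⟨g, hg⟩ := exists_increasing_or_nonincreasing_subseq (· < ·)
      (fun i => ((hn.natEmbedding _ i : _) : Lam lam))
    rcases hg with hg | hg
    · exact ⟨fun i => ((hn.natEmbedding _ (g i) : _) : Lam lam),
        fun i => (hn.natEmbedding _ (g i)).2, fun i j hij => hg i j hij⟩
    · exfalso
      refine not_strictAnti_of_wellFoundedLT
        (fun i => ((hn.natEmbedding _ (g i) : _) : Lam lam)) ?_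
      intro i j hij
      refine lt_of_le_of_ne (not_lt.1 (hg i j hij)) ?_
      intro h
      have h1 := (hn.natEmbedding _).injective (Subtype.ext h)
      exact absurd (g.injective h1) hij.ne'
  have h1 : {y | ∀ a ∈ H, ∃ n, y ∈ (x a).N n} ⊆ ⋃ a : range s, ⋃ m : Iic n, (x a.1).N m.1 := by
    intro y hy
    by_contra hc
    have hc' : ∀ i, ∀ m ≤ n, y ∉ (x (s i)).N m := by
      intro i m hm h
      exact hc (mem_iUnion.2 ⟨⟨s i, i, rfl⟩, mem_iUnion.2 ⟨⟨m, hm⟩, h⟩⟩)
    have h2 : ∀ i, ∃ m, y ∈ (x (s i)).N m := fun i => hy _ (hs i).1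
    choose l hl using h2
    refine not_strictAnti_of_wellFoundedLT l ?_
    intro i j hij
    by_contra h3
    rw [not_lt] at h3
    have h4 : n < l j := not_le.1 fun h => hc' j _ h (hl j)
    have h5 : (x (s j)).d (s i) ≤ n :=
      ((hx top le_rfl).d2 (s i) (s j) (hsm hij).le (hH (hs j).1)).trans
        (max_le (hs i).2 (hs j).2)
    exact (hx (s j) (hH (hs j).1)).n2 (l j) y (hl j) (s i) (hsm hij) (h5.trans h4.le) (l i) h3
      (hl i)
  refine lt_of_le_of_lt ((mk_le_mk_of_subset h1).trans ?_) (hS.lt n)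
  refine (mk_iUnion_le_sum_mk.trans (sum_le_mk_mul_iSup _)).trans ?_
  refine mul_le_of_le (hS.inf _) ((mk_le_aleph0_iff.2
    (countable_range s).to_subtype).trans (hS.inf _)) ?_
  refine ciSup_le' fun a => ?_
  refine (mk_iUnion_le_sum_mk.trans (sum_le_mk_mul_iSup _)).trans ?_
  refine mul_le_of_le (hS.inf _) ((mk_le_aleph0_iff.2 inferInstance).trans (hS.inf _)) ?_
  refine ciSup_le' fun m => ?_
  obtain ⟨i, hi⟩ := a.2
  have h6 : a.1 ≤ top := by
    rw [← hi]
    exact hH (hs i).1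
  exact ((hx a.1 h6).n3 m.1).trans (hS.mono m.2)

end

section

variable {M : Type u} [LinearOrder M] [OrderBot M] {lam : Cardinal.{u}} {c : M → Cardinal.{u}}

/-- The conditions: initial segments, with a last stage. -/
structure Cond (lam : Cardinal.{u}) (c : M → Cardinal.{u}) : Type u where
  /-- the last stage -/
  top : Lam lam
  /-- the data up to the last stage -/
  x : Lam lam → Dat (Lam lam) M
  good : ∀ b ≤ top, Good c x b
  /-- no data after the last stage -/
  junk : ∀ b, top < b → x b = Dat.zero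

instance : Preorder (Cond lam c) where
  le q p := p.top ≤ q.top ∧ ∀ a ≤ p.top, q.x a = p.x a
  le_refl p := ⟨le_rfl, fun _ _ => rfl⟩
  le_trans q p r h h' := ⟨h'.1.trans h.1, fun a ha =>
    (h.2 a (ha.trans h'.1)).trans (h'.2 a ha)⟩

theorem Cond.le_def {q p : Cond lam c} : q ≤ p ↔ p.top ≤ q.top ∧ ∀ a ≤ p.top, q.x a = p.x a :=
  Iff.rfl

/-- a condition obtained from data which are good below `b` -/
theorem exists_cond [Countable M] (hS : Setup lam c) (x : Lam lam → Dat (Lam lam) M) (b : Lam lam)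
    (hx : ∀ a < b, Good c x a) (D : Lam lam → M)
    (hD1 : ∀ n, #{a | a < b ∧ D a ≤ n} ≤ c n)
    (hD2 : ∀ a g, a ≤ g → g < b → (x g).d a ≤ max (D a) (D g))
    (hD3 : ∀ a g, a ≤ g → g < b → D a ≤ max ((x g).d a) (D g)) (A' : Set (Lam lam))
    (hA' : #A' ≤ lam) :
    ∃ q : Cond lam c, q.top = b ∧ (∀ a < b, q.x a = x a) ∧ (q.x b).A = A' ∧
      ∀ a < b, (q.x b).d a = D a := by
  classical
  obtain ⟨y, h1, h2, h3, h4⟩ := attach hS x b hx D hD1 hD2 hD3 A' hA'
  let z : Lam lam → Dat (Lam lam) M := fun a => if a ≤ b then y a else Dat.zero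
  have hz : ∀ a ≤ b, z a = y a := fun a ha => if_pos ha
  have hzb : z b = y b := hz b le_rfl
  refine ⟨⟨b, z, fun a ha => ?_, fun a ha => if_neg (not_le.2 ha)⟩, rfl, ?_, ?_, ?_⟩
  · rcases ha.eq_or_lt with rfl | h
    · exact h2.congr hz
    · exact (hx a h).congr fun g hg => (hz g (hg.trans ha)).trans (h1 g (hg.trans_lt h))
  · exact fun a ha => (hz a ha.le).trans (h1 a ha)
  · change (z b).A = A'
    rw [hzb]
    exact h3
  · change ∀ a < b, (z b).d a = D a
    rw [hzb]
    exact h4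

theorem one_more [Countable M] (hS : Setup lam c) (p q : Cond lam c) (hqp : q ≤ p)
    (A' : Set (Lam lam)) (hA' : #A' ≤ lam) :
    ∃ r ≤ q, q.top < r.top ∧ (r.x r.top).d p.top = ⊥ ∧ (r.x r.top).A = A' := by
  classical
  have hne : ({a | q.top < a} : Set (Lam lam)).Nonempty := by
    obtain ⟨b, hb⟩ := exists_bound hS.inf_lam (ι := PUnit.{u+1})
      (by rw [mk_punit]; exact one_le_aleph0.trans hS.inf_lam) (fun _ => q.top)
    exact ⟨b, hb PUnit.unit⟩
  obtain ⟨b, hb, hmin⟩ := (wellFounded_lt (α := Lam lam)).has_min _ hne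
  have hb' : q.top < b := hb
  have hlt : ∀ a, a < b → a ≤ q.top := fun a ha => not_lt.1 fun h => hmin a h ha
  have hgg : p.top ≤ q.top := hqp.1
  have G := q.good q.top le_rfl
  have G0 := q.good p.top hgg
  let D : Lam lam → M := fun a => if a ≤ p.top then (q.x p.top).d a else
    max ((q.x q.top).d p.top) ((q.x q.top).d a)
  have hDl : ∀ a, a ≤ p.top → D a = (q.x p.top).d a := fun a h => if_pos h
  have hDr : ∀ a, p.top < a → D a = max ((q.x q.top).d p.top) ((q.x q.top).d a) :=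
    fun a h => if_neg (not_le.2 h)
  have hlast : ∀ g, p.top < g → g ≤ q.top → (q.x g).d p.top ≤ D g := by
    intro g h1 h2
    rw [hDr g h1]
    exact G.d2 _ _ h1.le h2
  obtain ⟨r, hr1, hr2, hr3, hr4⟩ := exists_cond hS q.x b (fun a ha => q.good a (hlt a ha)) D
    (by
      intro n
      have h1 : {a | a < b ∧ D a ≤ n} ⊆ {a | a ≤ p.top ∧ (q.x p.top).d a ≤ n} ∪
          {a | a ≤ q.top ∧ (q.x q.top).d a ≤ n} := by
        rintro a ⟨h1, h2⟩
        rcases le_or_gt a p.top with h | h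
        · exact Or.inl ⟨h, by rwa [hDl a h] at h2⟩
        · refine Or.inr ⟨hlt a h1, ?_⟩
          rw [hDr a h] at h2
          exact (le_max_right _ _).trans h2
      refine (mk_le_mk_of_subset h1).trans ((mk_union_le _ _).trans ?_)
      exact add_le_of_le (hS.inf n) (G0.d1 n) (G.d1 n))
    (by
      intro a g h1 h2
      rcases le_or_gt g p.top with h | h
      · rw [hDl g h, hDl a (h1.trans h)]
        exact G0.d2 a g h1 h
      rcases le_or_gt a p.top with h' | h'
      · have h3 := (q.good g (hlt g h2)).d3 a p.top h' h.le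
        have h4 := hlast g h (hlt g h2)
        rw [hDl a h']
        exact h3.trans (max_le_max le_rfl h4)
      · have h3 := G.d2 a g h1 (hlt g h2)
        rw [hDr a h', hDr g h]
        exact h3.trans (max_le_max (le_max_right _ _) (le_max_right _ _)))
    (by
      intro a g h1 h2
      rcases le_or_gt g p.top with h | h
      · rw [hDl g h, hDl a (h1.trans h)]
        exact G0.d3 a g h1 h
      rcases le_or_gt a p.top with h' | h'
      · have h3 := (q.good g (hlt g h2)).d2 a p.top h' h.le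
        have h4 := hlast g h (hlt g h2)
        rw [hDl a h']
        exact h3.trans (max_le_max le_rfl h4)
      · have h3 := G.d3 a g h1 (hlt g h2)
        rw [hDr a h', hDr g h]
        refine max_le ((le_max_left _ _).trans (le_max_right _ _)) ?_
        exact h3.trans (max_le_max le_rfl (le_max_right _ _)))
    A' hA'
  refine ⟨r, ⟨by rw [hr1]; exact hb'.le, fun a ha => hr2 a (ha.trans_lt hb')⟩, ?_, ?_, ?_⟩
  · rw [hr1]; exact hb'
  · rw [hr1, hr4 _ (hgg.trans_lt hb'), hDl _ le_rfl]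
    exact G0.d0
  · rw [hr1]; exact hr3

theorem limit_step [Countable M] (hS : Setup lam c) {I : Type u} [LinearOrder I] [WellFoundedLT I] [Nonempty I]
    (hI : #I ≤ lam) (p : I → Cond lam c) (lev : I → M) (hlev : Monotone lev)
    (hlev' : ∀ n, #{i | lev i ≤ n} ≤ c n) (hle : ∀ j i, j ≤ i → p i ≤ p j)
    (htop : ∀ j i, j < i → (p j).top < (p i).top)
    (hd : ∀ j i, j < i → ((p i).x (p i).top).d (p j).top ≤ lev i) :
    ∃ q : Cond lam c, ∀ i, q ≤ p i ∧ (p i).top < q.top ∧ (q.x q.top).d (p i).top ≤ lev i := by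
  classical
  obtain ⟨b, hb, hmin⟩ := (wellFounded_lt (α := Lam lam)).has_min _
    (exists_bound hS.inf_lam hI fun i => (p i).top)
  have hb' : ∀ i, (p i).top < b := hb
  have hlt : ∀ a, a < b → ∃ i, a ≤ (p i).top := by
    intro a ha
    by_contra hc
    push Not at hc
    exact hmin a hc ha
  -- the least index above `a`
  have hj : ∀ a : Lam lam, ∃ j : I, a < b → (a ≤ (p j).top ∧ ∀ i, a ≤ (p i).top → j ≤ i) := by
    intro a
    by_cases ha : a < b
    · obtain ⟨j, h1, h2⟩ := (wellFounded_lt (α := I)).has_min {i | a ≤ (p i).top} (hlt a ha)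
      exact ⟨j, fun _ => ⟨h1, fun i hi => not_lt.1 fun h => h2 i hi h⟩⟩
    · exact ⟨Classical.arbitrary I, fun h => absurd h ha⟩
  choose j hj using hj
  let X : Lam lam → Dat (Lam lam) M := fun a => (p (j a)).x a
  have hX : ∀ i a, a ≤ (p i).top → X a = (p i).x a := by
    intro i a ha
    have h1 := hj a (ha.trans_lt (hb' i))
    exact ((hle _ _ (h1.2 i ha)).2 a h1.1).symm
  have hG : ∀ i a, a ≤ (p i).top → Good c X a := by
    intro i a ha
    exact ((p i).good a ha).congr fun g hg => hX i g (hg.trans ha)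
  let D : Lam lam → M := fun a => max ((X (p (j a)).top).d a) (lev (j a))
  have hD : ∀ a, D a = max ((X (p (j a)).top).d a) (lev (j a)) := fun a => rfl
  have hjm : ∀ a g, a ≤ g → g < b → j a ≤ j g := by
    intro a g h1 h2
    exact (hj a (h1.trans_lt h2)).2 _ (h1.trans (hj g h2).1)
  -- comparing two blocks
  have hblock : ∀ a g, a ≤ g → g < b → j a < j g →
      (X g).d (p (j a)).top ≤ D g ∧ (p (j a)).top ≤ g ∧
      (X (p (j g)).top).d (p (j a)).top ≤ D g := by
    intro a g h1 h2 h3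
    have h4 : (p (j a)).top < g := by
      by_contra hc
      exact absurd ((hj g h2).2 _ (not_lt.1 hc)) (not_le.2 h3)
    have h5 := (hG (j g) _ le_rfl).d2 (p (j a)).top g h4.le (hj g h2).1
    have h6 : (X (p (j g)).top).d (p (j a)).top ≤ lev (j g) := by
      rw [hX (j g) _ le_rfl]
      exact hd _ _ h3
    have h7 : (X (p (j g)).top).d (p (j a)).top ≤ D g := h6.trans (le_max_right _ _)
    exact ⟨h5.trans (max_le h7 (le_max_left _ _)), h4.le, h7⟩
  obtain ⟨q, hq1, hq2, _, hq4⟩ := exists_cond hS X b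
    (fun a ha => hG (j a) a (hj a ha).1) D
    (by
      intro n
      have h1 : {a | a < b ∧ D a ≤ n} ⊆ ⋃ i : {i : I | lev i ≤ n},
          {a | a ≤ (p i.1).top ∧ (X (p i.1).top).d a ≤ n} := by
        rintro a ⟨h1, h2⟩
        refine mem_iUnion.2 ⟨⟨j a, (le_max_right _ _).trans h2⟩, (hj a h1).1, ?_⟩
        exact (le_max_left _ _).trans h2
      refine (mk_le_mk_of_subset h1).trans ?_
      refine (mk_iUnion_le_sum_mk.trans (sum_le_mk_mul_iSup _)).trans ?_
      refine mul_le_of_le (hS.inf n) (hlev' n) ?_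
      exact ciSup_le' fun i => (hG i.1 _ le_rfl).d1 n)
    (by
      intro a g h1 h2
      rcases (hjm a g h1 h2).eq_or_lt with h | h
      · have h3 := (hG (j g) _ le_rfl).d2 a g h1 (hj g h2).1
        refine h3.trans (max_le_max ?_ (le_max_left _ _))
        rw [hD a, h]
        exact le_max_left _ _
      · obtain ⟨_, h4, h5⟩ := hblock a g h1 h2 h
        have h3 := (hG (j g) _ le_rfl).d2 a g h1 (hj g h2).1
        have h6 := (hG (j g) _ le_rfl).d3 a (p (j a)).top (hj a (h1.trans_lt h2)).1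
          (h4.trans (hj g h2).1)
        refine h3.trans (max_le (h6.trans (max_le_max (le_max_left _ _) h5)) ?_)
        exact (le_max_left _ _).trans (le_max_right _ _))
    (by
      intro a g h1 h2
      have hl : lev (j a) ≤ D g := (hlev (hjm a g h1 h2)).trans (le_max_right _ _)
      rw [hD a]
      refine max_le ?_ (hl.trans (le_max_right _ _))
      rcases (hjm a g h1 h2).eq_or_lt with h | h
      · have h3 := (hG (j g) _ le_rfl).d3 a g h1 (hj g h2).1
        rw [h]
        exact h3.trans (max_le_max le_rfl (le_max_left _ _))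
      · obtain ⟨h3, h4, _⟩ := hblock a g h1 h2 h
        have h5 := (hG (j g) g (hj g h2).1).d2 a (p (j a)).top (hj a (h1.trans_lt h2)).1 h4
        exact h5.trans (max_le_max le_rfl h3))
    ∅ (by simp)
  refine ⟨q, fun i => ⟨⟨by rw [hq1]; exact (hb' i).le, fun a ha => ?_⟩, by rw [hq1]; exact hb' i,
    ?_⟩⟩
  · rw [hq2 a (ha.trans_lt (hb' i)), hX i a ha]
  · rw [hq1, hq4 _ (hb' i), hD]
    have h1 : j (p i).top ≤ i := (hj _ (hb' i)).2 i le_rfl
    have h2 : j (p i).top = i := by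
      rcases h1.eq_or_lt with h | h
      · exact h
      · exact absurd (hj _ (hb' i)).1 (not_le.2 (htop _ _ h))
    rw [h2]
    refine max_le ?_ le_rfl
    rw [hX i _ le_rfl, ((p i).good _ le_rfl).d0]
    exact bot_le

end

section

variable {M : Type u} [LinearOrder M] [OrderBot M] {lam : Cardinal.{u}} {c : M → Cardinal.{u}}

theorem mk_le_of_Iio_lt {S : Type u} [LinearOrder S] [WellFoundedLT S] (μ : Cardinal.{u})
    (h : ∀ i : S, #(Iio i) < μ) : #S ≤ μ := by
  by_contra hc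
  rw [not_le] at hc
  have h1 : μ.ord < typeLT S := by
    by_contra h2
    rw [not_lt] at h2
    have h3 := card_le_card h2
    rw [card_type, card_ord] at h3
    exact absurd h3 (not_le.2 hc)
  have h2 := card_typein (r := ((· < ·) : S → S → Prop)) (enum (· < ·) ⟨μ.ord, h1⟩)
  rw [typein_enum, card_ord] at h2
  exact absurd h2 (h _).ne'

omit [OrderBot M] in
theorem exists_level [WellFoundedLT M] (hS : Setup lam c) :
    ∃ lev : lam.ord.ToType → M, Monotone lev ∧ ∀ n, #{i | lev i ≤ n} ≤ c n := by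
  classical
  have h0 : ∀ i : lam.ord.ToType, ∃ n, #(Iio i) < c n := by
    intro i
    have h1 : #(Iio i) < lam := mk_Iio_ord_lt i
    obtain ⟨n, hn⟩ := hS.cof _ (hS.lim _ h1)
    exact ⟨n, (Order.lt_succ _).trans_le hn⟩
  have h1 : ∀ i : lam.ord.ToType, ∃ n, #(Iio i) < c n ∧ ∀ m, #(Iio i) < c m → n ≤ m := by
    intro i
    obtain ⟨n, h1, h2⟩ := (wellFounded_lt (α := M)).has_min {n | #(Iio i) < c n} (h0 i)
    exact ⟨n, h1, fun m hm => not_lt.1 (h2 m hm)⟩
  choose lev h1 h2 using h1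
  refine ⟨lev, ?_, ?_⟩
  · intro i j hij
    exact h2 i _ ((mk_le_mk_of_subset (Iio_subset_Iio hij)).trans_lt (h1 j))
  · intro n
    refine mk_le_of_Iio_lt (c n) ?_
    rintro ⟨i, hi⟩
    have h2 : #(Iio i) < c n := (h1 i).trans_le (hS.mono hi)
    refine lt_of_le_of_lt ?_ h2
    refine mk_le_of_injective (f := fun j => (⟨j.1.1, j.2⟩ : Iio i)) ?_
    rintro ⟨⟨j, _⟩, _⟩ ⟨⟨k, _⟩, _⟩ h
    have : j = k := congrArg Subtype.val h
    subst this
    rfl

/-- a set of sentences, closed downwards -/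
def Down {P : Type u} [Preorder P] (φ : Set P) : Prop := ∀ p ∈ φ, ∀ q ≤ p, q ∈ φ

theorem meet_many_ord [WellFoundedLT M] [Countable M] (hS : Setup lam c) (φ : lam.ord.ToType → Set (Cond lam c))
    (hdown : ∀ i, Down (φ i)) (p : Cond lam c) (hdense : ∀ i, ∀ r ≤ p, ∃ q ≤ r, q ∈ φ i) :
    ∃ q ≤ p, ∀ i, q ∈ φ i := by
  classical
  obtain ⟨lev, hlev, hlev'⟩ := exists_level hS
  obtain ⟨F, hF⟩ := exists_rec (I := lam.ord.ToType) (X := Cond lam c)
    (fun i f q => (∀ j (hj : j < i), q ≤ f j hj ∧ (f j hj).top < q.top ∧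
      (q.x q.top).d (f j hj).top ≤ lev i) ∧ q ∈ φ i ∧ q ≤ p) (by
    intro i f ih
    by_cases hne : Nonempty (Iio i)
    · obtain ⟨q0, hq0⟩ := limit_step hS (I := Iio i) (mk_Iio_ord_lt i).le
        (fun j => f j.1 j.2) (fun j => lev j.1) (fun j k h => hlev h)
        (by
          intro n
          refine le_trans ?_ (hlev' n)
          refine mk_le_of_injective (f := fun j => (⟨j.1.1, j.2⟩ : {i | lev i ≤ n})) ?_
          rintro ⟨⟨j, _⟩, _⟩ ⟨⟨k, _⟩, _⟩ h
          have : j = k := congrArg Subtype.val h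
          subst this
          rfl)
        (by
          rintro ⟨j, hj⟩ ⟨k, hk⟩ hjk
          rcases (show j ≤ k from hjk).eq_or_lt with h | h
          · subst h
            exact le_rfl
          · exact ((ih k hk).1 j h).1)
        (by
          rintro ⟨j, hj⟩ ⟨k, hk⟩ hjk
          exact ((ih k hk).1 j hjk).2.1)
        (by
          rintro ⟨j, hj⟩ ⟨k, hk⟩ hjk
          exact ((ih k hk).1 j hjk).2.2)
      have hq0p : q0 ≤ p := by
        obtain ⟨j⟩ := hne
        exact (hq0 j).1.trans (ih j.1 j.2).2.2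
      obtain ⟨q1, hq1, hq1φ⟩ := hdense i q0 hq0p
      obtain ⟨q2, hq2, hq2t, hq2d, _⟩ := one_more hS q0 q1 hq1 ∅ (by simp)
      refine ⟨q2, fun j hj => ?_, hdown i _ hq1φ _ hq2, hq2.trans (hq1.trans hq0p)⟩
      obtain ⟨h1, h2, h3⟩ := hq0 ⟨j, hj⟩
      have h4 : q0.top ≤ q2.top := hq1.1.trans hq2.1
      refine ⟨hq2.trans (hq1.trans h1), h2.trans_le h4, ?_⟩
      have h5 := (q2.good q2.top le_rfl).d3 (f j hj).top q0.top h2.le h4
      rw [hq2d, (hq2.trans hq1).2 q0.top le_rfl] at h5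
      refine h5.trans (max_le (h3.trans (hlev hj.le)) bot_le)
    · obtain ⟨q1, hq1, hq1φ⟩ := hdense i p le_rfl
      exact ⟨q1, fun j hj => (hne ⟨⟨j, hj⟩⟩).elim, hq1φ, hq1⟩)
  have hne : Nonempty lam.ord.ToType := by
    rw [← mk_ne_zero_iff, mk_toType, card_ord]
    exact (aleph0_pos.trans_le hS.inf_lam).ne'
  obtain ⟨q, hq⟩ := limit_step hS (I := lam.ord.ToType) (by simp) F lev hlev hlev'
    (by
      intro j i hji
      rcases hji.eq_or_lt with h | h
      · subst h
        exact le_rfl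
      · exact ((hF i).1 j h).1)
    (fun j i h => ((hF i).1 j h).2.1) (fun j i h => ((hF i).1 j h).2.2)
  obtain ⟨i0⟩ := hne
  exact ⟨q, (hq i0).1.trans (hF i0).2.2, fun i => hdown i _ (hF i).2.1 _ (hq i).1⟩

/-- `lam` many dense requirements can be met at once -/
theorem meet_many [WellFoundedLT M] [Countable M] (hS : Setup lam c) {ι : Type u} (hι : #ι ≤ lam) (φ : ι → Set (Cond lam c))
    (hdown : ∀ i, Down (φ i)) (p : Cond lam c) (hdense : ∀ i, ∀ r ≤ p, ∃ q ≤ r, q ∈ φ i) :
    ∃ q ≤ p, ∀ i, q ∈ φ i := by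
  rcases isEmpty_or_nonempty ι with h | h
  · exact ⟨p, le_rfl, fun i => (h.false i).elim⟩
  have h1 : #ι ≤ #(lam.ord.ToType) := by simpa using hι
  obtain ⟨e⟩ := h1
  let g : lam.ord.ToType → ι := Function.invFun e
  have hg : Function.Surjective g := Function.invFun_surjective e.injective
  obtain ⟨q, hq, hq'⟩ := meet_many_ord hS (fun i => φ (g i)) (fun i => hdown _) p
    (fun i => hdense _)
  refine ⟨q, hq, fun i => ?_⟩
  obtain ⟨j, rfl⟩ := hg i
  exact hq' j

end
section

theorem exists_mk_Iio_eq {lam ν : Cardinal.{u}} (h : ν < lam) :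
    ∃ i : lam.ord.ToType, #(Iio i) = ν := by
  have h1 : ν.ord < typeLT lam.ord.ToType := by
    rw [type_toType]
    exact ord_lt_ord.2 h
  refine ⟨enum (· < ·) ⟨ν.ord, h1⟩, ?_⟩
  have h2 := card_typein (r := ((· < ·) : lam.ord.ToType → lam.ord.ToType → Prop))
    (enum (· < ·) ⟨ν.ord, h1⟩)
  rw [typein_enum, card_ord] at h2
  exact h2.symm

theorem exists_setup (lam : Cardinal.{u}) (h0 : ℵ₀ ≤ lam) (h1 : lam.ord.cof < lam) :
    ∃ c : lam.ord.cof.ord.ToType → Cardinal.{u}, Setup lam c := by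
  obtain ⟨s, hs, hs'⟩ := exists_ord_cof_eq lam.ord.ToType
  rw [cof_toType] at hs'
  have h2 : typeLT s = typeLT lam.ord.cof.ord.ToType := by
    rw [hs', type_toType]
  obtain ⟨e⟩ := type_eq.1 h2
  have hlt : ℵ₀ < lam := by
    rcases h0.eq_or_lt with h | h
    · rw [← h, ord_aleph0, cof_omega0] at h1
      exact absurd h1 (lt_irrefl _)
    · exact h
  have hmono : ∀ a b : lam.ord.cof.ord.ToType, a ≤ b → (e.symm a).1 ≤ (e.symm b).1 := by
    intro a b hab
    rcases hab.eq_or_lt with h | h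
    · rw [h]
    · have h3 : (e.symm a) < (e.symm b) := e.symm.map_rel_iff.2 h
      exact le_of_lt h3
  refine ⟨fun m => max ℵ₀ #(Iio (e.symm m).1), fun _ => le_max_left _ _, ?_, ?_, ?_, ?_⟩
  · intro a b hab
    exact max_le_max le_rfl (mk_le_mk_of_subset (Iio_subset_Iio (hmono a b hab)))
  · intro m
    exact max_lt hlt (mk_Iio_ord_lt _)
  · intro ν hν
    obtain ⟨i, hi⟩ := exists_mk_Iio_eq hν
    obtain ⟨j, hj, hij⟩ := hs i
    refine ⟨e ⟨j, hj⟩, ?_⟩
    rw [e.symm_apply_apply, ← hi]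
    exact (mk_le_mk_of_subset (Iio_subset_Iio hij)).trans (le_max_right _ _)
  · intro ν hν
    rcases (Order.succ_le_of_lt hν).eq_or_lt with h | h
    · exfalso
      have h3 : ℵ₀ ≤ ν := by
        by_contra hc
        have h4 : Order.succ ν < ℵ₀ := by
          rw [not_le] at hc
          obtain ⟨n, rfl⟩ := lt_aleph0.1 hc
          have h5 : Order.succ (n : Cardinal.{u}) ≤ ((n + 1 : ℕ) : Cardinal.{u}) :=
            Order.succ_le_of_lt (by exact_mod_cast Nat.lt_succ_self n)
          exact h5.trans_lt natCast_lt_aleph0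
        rw [h] at h4
        exact absurd h4 (not_lt.2 h0)
      have h5 := (isRegular_succ h3).cof_ord
      rw [h] at h5
      rw [h5] at h1
      exact lt_irrefl _ h1
    · exact h

end

section

/-! ### The forcing language -/

section
variable {P : Type u} [Preorder P]

/-- `p` forces `not φ` iff no `q ≤ p` forces `φ`. -/
def fnot (φ : Set P) : Set P := {p | ∀ q ≤ p, q ∉ φ}

/-- `p` forces `φ and ψ` iff it forces both. -/
def fand (φ ψ : Set P) : Set P := {p | p ∈ φ ∧ p ∈ ψ}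

/-- `p` forces `for all i, φ i` iff it forces every `φ i`. -/
def fall {ι : Sort v} (φ : ι → Set P) : Set P := {p | ∀ i, p ∈ φ i}

/-- `φ implies ψ` is `not (φ and not ψ)`. -/
def fimp (φ ψ : Set P) : Set P := fnot (fand φ (fnot ψ))

/-- `there is i with φ i` is `not for all i, not φ i`. -/
def fex {ι : Sort v} (φ : ι → Set P) : Set P := fnot (fall fun i => fnot (φ i))

/-- An absolute statement about ground model objects. -/
def fground (h : Prop) : Set P := {_p | h}

/-- `p` forces that the generic filter meets the set `N` of conditions: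
the set of `r` lying below some member of `N` is dense below `p`. -/
def meets (N : Set P) : Set P := {p | ∀ q ≤ p, ∃ r ≤ q, ∃ s ∈ N, r ≤ s}

/-- The relation named by `R` is a function from `X` to `Y`. -/
def IsFun {X : Type v} {Y : Type w} (R : X → Y → Set P) : Set P :=
  fand (fall fun x => fex fun y => meets (R x y))
    (fall fun x => fall fun y => fall fun y' =>
      fimp (fand (meets (R x y)) (meets (R x y'))) (fground (y = y')))

/-- The relation named by `R` is injective. -/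
def IsInj {X : Type v} {Y : Type w} (R : X → Y → Set P) : Set P :=
  fall fun x => fall fun x' => fall fun y =>
    fimp (fand (meets (R x y)) (meets (R x' y))) (fground (x = x'))

/-- The set of all `y` such that `φ y` holds has at least as many elements as `A`: there is an
injective function defined on `A` with values in this set. -/
def AtLeast (A : Type v) {Y : Type w} (φ : Y → Set P) : Set P :=
  fex fun R : A → Y → Set P => fand (fand (IsFun R) (IsInj R))
    (fall fun a => fall fun y => fimp (meets (R a y)) (φ y))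

theorem mem_fex {ι : Sort v} {φ : ι → Set P} {p : P} :
    p ∈ fex φ ↔ ∀ q ≤ p, ∃ r ≤ q, ∃ i, r ∈ φ i := by
  simp only [fex, fnot, fall, Set.mem_ofPred_eq, not_forall, not_not]
  constructor
  · intro h q hq
    obtain ⟨i, r, hr, h'⟩ := h q hq
    exact ⟨r, hr, i, h'⟩
  · intro h q hq
    obtain ⟨r, hr, i, h'⟩ := h q hq
    exact ⟨i, r, hr, h'⟩

theorem mem_fimp {φ ψ : Set P} {p : P} :
    p ∈ fimp φ ψ ↔ ∀ q ≤ p, q ∈ φ → ∃ r ≤ q, r ∈ ψ := by
  simp only [fimp, fnot, fand, Set.mem_ofPred_eq, not_and, not_forall, not_not]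
  constructor
  · intro h q hq h'
    obtain ⟨r, hr, h''⟩ := h q hq h'
    exact ⟨r, hr, h''⟩
  · intro h q hq h'
    obtain ⟨r, hr, h''⟩ := h q hq h'
    exact ⟨r, hr, h''⟩

theorem down_fnot (φ : Set P) : Down (fnot φ) :=
  fun _ hp _ hq r hr => hp r (hr.trans hq)

theorem down_fand {φ ψ : Set P} (h : Down φ) (h' : Down ψ) : Down (fand φ ψ) :=
  fun _ hp _ hq => ⟨h _ hp.1 _ hq, h' _ hp.2 _ hq⟩

theorem down_fall {ι : Sort v} {φ : ι → Set P} (h : ∀ i, Down (φ i)) : Down (fall φ) :=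
  fun _ hp _ hq i => h i _ (hp i) _ hq

theorem down_fex {ι : Sort v} (φ : ι → Set P) : Down (fex φ) := down_fnot _

theorem down_fimp (φ ψ : Set P) : Down (fimp φ ψ) := down_fnot _

theorem down_meets (N : Set P) : Down (meets N) :=
  fun _ hp _ hq r hr => hp r (hr.trans hq)

theorem down_isFun {X : Type v} {Y : Type w} (R : X → Y → Set P) : Down (IsFun R) :=
  down_fand (down_fall fun _ => down_fex _)
    (down_fall fun _ => down_fall fun _ => down_fall fun _ => down_fimp _ _)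

theorem down_isInj {X : Type v} {Y : Type w} (R : X → Y → Set P) : Down (IsInj R) :=
  down_fall fun _ => down_fall fun _ => down_fall fun _ => down_fimp _ _

variable (P)

/-- Every function from `A` to a set of the ground model which belongs to the extension belongs
to the ground model. -/
def NoNewFunctions (A : Type u) : Prop :=
  ∀ (Y : Type u) (R : A → Y → Set P), ∀ p ∈ IsFun R, ∃ q ≤ p, ∃ f : A → Y,
    ∀ a, q ∈ meets (R a (f a))

/-- The relation `(|S|, |S|) → (|S|, |I|; |T|, |T|)` fails in the extension: there is a partition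
of `S × S` into two classes `Δ₀` and `Δ₁` (the set of all `y` with `(x, y) ∈ Δ₁` is named by
`F x`) such that for all `X, Y ⊆ S`, if `X` has at least `|S|` elements and `Y` has at least `|T|`
elements then `X × Y` is not a subset of `Δ₀`, and if `X` has at least `|I|` elements and `Y` has
at least `|T|` elements then `X × Y` is not a subset of `Δ₁`. -/
def NotPolar (S T I : Type u) : Set P :=
  fex fun F : S → S → Set P =>
    fand
      (fall fun X : S → Set P => fall fun Y : S → Set P =>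
        fimp (fand (AtLeast S fun x => meets (X x)) (AtLeast T fun y => meets (Y y)))
          (fnot (fall fun x => fall fun y =>
            fimp (fand (meets (X x)) (meets (Y y))) (fnot (meets (F x y))))))
      (fall fun X : S → Set P => fall fun Y : S → Set P =>
        fimp (fand (AtLeast I fun x => meets (X x)) (AtLeast T fun y => meets (Y y)))
          (fnot (fall fun x => fall fun y =>
            fimp (fand (meets (X x)) (meets (Y y))) (meets (F x y)))))

end

variable {M : Type u} [LinearOrder M] [OrderBot M] {lam : Cardinal.{u}} {c : M → Cardinal.{u}}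

/-- deciding the values of a function defined on a set of size at most `lam` -/
theorem decide_fun [WellFoundedLT M] [Countable M] (hS : Setup lam c) {A : Type u} (hA : #A ≤ lam)
    {Y : Type v} (R : A → Y → Set (Cond lam c)) (p : Cond lam c) (hp : p ∈ IsFun R) :
    ∃ q ≤ p, ∃ f : A → Y, ∀ a, q ∈ meets (R a (f a)) := by
  obtain ⟨q, hq, h1⟩ := meet_many hS hA (fun a => {t | ∃ y, t ∈ meets (R a y)})
    (fun n t ⟨a, ha⟩ t' ht' => ⟨a, down_meets _ _ ha _ ht'⟩) p (by
      intro n t ht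
      obtain ⟨t', ht', a, ha⟩ := mem_fex.1 (hp.1 n) t ht
      exact ⟨t', ht', a, ha⟩)
  choose f hf using h1
  exact ⟨q, hq, f, hf⟩

theorem exists_longer [WellFoundedLT M] [Countable M] (hS : Setup lam c) (a : Lam lam) :
    ∀ p : Cond lam c, ∃ q ≤ p, a ≤ q.top := by
  induction a using (wellFounded_lt (α := Lam lam)).induction with
  | _ a ih =>
    intro p
    obtain ⟨q, hq, h1⟩ := meet_many hS (mk_Iio_le a) (fun a' : Iio a => {t : Cond lam c | a'.1 ≤ t.top})
      (fun a' t ht t' ht' => le_trans (show a'.1 ≤ t.top from ht) ht'.1) p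
      (fun a' r _ => ih a'.1 a'.2 r)
    obtain ⟨r, hr, hr', _⟩ := one_more hS q q le_rfl ∅ (by simp)
    refine ⟨r, hr.trans hq, ?_⟩
    by_contra hc
    exact absurd (h1 ⟨r.top, not_le.1 hc⟩) (not_le.2 hr')

/-- the generic partition: `(a, y) ∈ Δ₁` -/
def gen (a y : Lam lam) : Set (Cond lam c) := {p | a ≤ p.top ∧ ∃ n, y ∈ (p.x a).N n}

theorem mem_meets_gen {a y : Lam lam} {p : Cond lam c} (ha : a ≤ p.top) {n : M}
    (hn : y ∈ (p.x a).N n) : p ∈ meets (gen a y) :=
  fun q hq => ⟨q, le_rfl, p, ⟨ha, n, hn⟩, hq⟩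

theorem of_mem_meets_gen {a y : Lam lam} {p : Cond lam c} (ha : a ≤ p.top)
    (h : p ∈ meets (gen a y)) : ∃ n, y ∈ (p.x a).N n := by
  obtain ⟨r, hr, s, hs, hrs⟩ := h p le_rfl
  obtain ⟨n, hn⟩ := hs.2
  refine ⟨n, ?_⟩
  rwa [← hrs.2 a hs.1, hr.2 a ha] at hn

theorem forced [WellFoundedLT M] [Countable M] (hS : Setup lam c) {Om : Type u}
    (hI : ℵ₀ < #Om) (hIl : #Om ≤ lam) (p : Cond lam c) :
    p ∈ NotPolar (P := Cond lam c) (Lam lam) lam.ord.ToType Om := by
  classical
  refine mem_fex.2 fun q _ => ⟨q, le_rfl, gen, ?_, ?_⟩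
  · intro X Y
    refine mem_fimp.2 fun r _ hr => ⟨r, le_rfl, ?_⟩
    intro t ht h
    obtain ⟨t1, ht1, R, ⟨hR1, hR2⟩, hR3⟩ := mem_fex.1 hr.2 t ht
    obtain ⟨t2, ht2, f, hf⟩ := decide_fun hS (A := lam.ord.ToType) (by simp) R t1 hR1
    have hinj : Function.Injective f := by
      intro i i' hii
      obtain ⟨_, _, h3⟩ := mem_fimp.1 (hR2 i i' (f i)) t2 ht2 ⟨hf i, by rw [hii]; exact hf i'⟩
      exact h3
    obtain ⟨ub, hub⟩ := exists_bound hS.inf_lam (ι := lam.ord.ToType) (by simp) f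
    obtain ⟨t3, ht3, _, _, hA⟩ := one_more hS t2 t2 le_rfl (range f) (mk_range_le.trans (by simp))
    obtain ⟨t4, ht4, G, ⟨hG1, hG2⟩, hG3⟩ := mem_fex.1 hr.1 t3
      (ht3.trans (ht2.trans (ht1.trans ht)))
    -- the set named by `X` is unbounded
    have hX : ∃ s ≤ t4, ∃ a, max t3.top ub < a ∧ s ∈ meets (X a) := by
      by_contra hc
      push Not at hc
      obtain ⟨s0, hs0, h1⟩ := meet_many hS (mk_Iic_le hS.inf_lam (max t3.top ub))
        (fun y => {s | (∃ x, s ∈ meets (G x y.1)) ∨ ∀ x, s ∈ fnot (meets (G x y.1))})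
        (by
          rintro y s (⟨x, hx⟩ | hx) s' hs'
          · exact Or.inl ⟨x, down_meets _ _ hx _ hs'⟩
          · exact Or.inr fun x => down_fnot _ _ (hx x) _ hs') t4
        (by
          intro y s _
          by_cases h2 : ∃ s' ≤ s, ∃ x, s' ∈ meets (G x y.1)
          · obtain ⟨s', hs', hx⟩ := h2
            exact ⟨s', hs', Or.inl hx⟩
          · push Not at h2
            exact ⟨s, le_rfl, Or.inr fun x s' hs' => h2 s' hs' x⟩)
      have h2 : ∀ y : Iic (max t3.top ub), ∃ g : Lam lam, s0 ∈ meets (G g y.1) ∨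
          ∀ x, s0 ∈ fnot (meets (G x y.1)) := by
        intro y
        rcases h1 y with ⟨x, hx⟩ | hx
        · exact ⟨x, Or.inl hx⟩
        · exact ⟨y.1, Or.inr hx⟩
      choose g hg using h2
      obtain ⟨x, hx⟩ := exists_bound hS.inf_lam (mk_Iic_le hS.inf_lam (max t3.top ub)) g
      obtain ⟨s1, hs1, y, hy⟩ := mem_fex.1 (hG1.1 x) s0 hs0
      obtain ⟨s2, hs2, hy2⟩ := mem_fimp.1 (hG3 x y) s1 (hs1.trans hs0) hy
      have hyb : y ≤ max t3.top ub := by
        by_contra h3
        exact hc s2 (hs2.trans (hs1.trans hs0)) y (not_le.1 h3) hy2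
      rcases hg ⟨y, hyb⟩ with h3 | h3
      · obtain ⟨_, _, h4⟩ := mem_fimp.1 (hG2 x (g ⟨y, hyb⟩) y) s1 (hs1.trans hs0)
          ⟨hy, down_meets _ _ h3 _ hs1⟩
        have h5 : x = g ⟨y, hyb⟩ := h4
        exact absurd (hx ⟨y, hyb⟩) (by rw [← h5]; exact lt_irrefl _)
      · exact h3 x s1 hs1 hy
    obtain ⟨s, hs, a, ha, hsa⟩ := hX
    obtain ⟨s', hs', ha'⟩ := exists_longer hS a s
    have hs3 : s' ≤ t3 := hs'.trans (hs.trans ht4)
    have h3a : t3.top < a := (le_max_left _ _).trans_lt ha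
    have hA' : (s'.x t3.top).A = range f := by
      rw [hs3.2 t3.top le_rfl]
      exact hA
    obtain ⟨n, b, hb, hbn⟩ := (s'.good a ha').n4 t3.top h3a
      (by
        rw [hA']
        rintro _ ⟨i, rfl⟩
        exact (hub i).trans ((le_max_right _ _).trans_lt ha))
      (by
        rw [hA', mk_range_eq f hinj]
        simp)
    rw [hA'] at hb
    obtain ⟨i, rfl⟩ := hb
    obtain ⟨s1, hs1, h1⟩ := mem_fimp.1 (hR3 i (f i)) s' (hs3.trans (ht3.trans ht2))
      (down_meets _ _ (hf i) _ (hs3.trans ht3))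
    obtain ⟨s2, hs2, h2⟩ := mem_fimp.1 (h a (f i)) s1
      (hs1.trans (hs3.trans (ht3.trans (ht2.trans ht1))))
      ⟨down_meets _ _ hsa _ (hs1.trans hs'), h1⟩
    exact h2 s2 le_rfl (down_meets _ _ (mem_meets_gen ha' hbn) _ (hs2.trans hs1))
  · intro X Y
    refine mem_fimp.2 fun r _ hr => ⟨r, le_rfl, ?_⟩
    intro t ht h
    obtain ⟨t1, ht1, R, ⟨hR1, hR2⟩, hR3⟩ := mem_fex.1 hr.2 t ht
    obtain ⟨t2, ht2, f, hf⟩ := decide_fun hS (A := lam.ord.ToType) (by simp) R t1 hR1
    have hinj : Function.Injective f := by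
      intro i i' hii
      obtain ⟨_, _, h3⟩ := mem_fimp.1 (hR2 i i' (f i)) t2 ht2 ⟨hf i, by rw [hii]; exact hf i'⟩
      exact h3
    obtain ⟨t3, ht3, G, ⟨hG1, hG2⟩, hG3⟩ := mem_fex.1 hr.1 t2 (ht2.trans (ht1.trans ht))
    obtain ⟨t4, ht4, g, hg⟩ := decide_fun hS (A := Om) hIl G t3 hG1
    have hinj' : Function.Injective g := by
      intro i i' hii
      obtain ⟨_, _, h3⟩ := mem_fimp.1 (hG2 i i' (g i)) t4 ht4 ⟨hg i, by rw [hii]; exact hg i'⟩
      exact h3
    obtain ⟨ub, hub⟩ := exists_bound hS.inf_lam (ι := Om) hIl g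
    obtain ⟨t5, ht5, h5⟩ := exists_longer hS ub t4
    have h6 := small_inter hS t5.x t5.top (fun b hb => (t5.good b hb).toGood0) (range g)
      (by
        rintro _ ⟨i, rfl⟩
        exact (hub i).le.trans h5)
      (by rwa [mk_range_eq g hinj'])
    have h7 : range f ⊆ {y | ∀ a ∈ range g, ∃ n, y ∈ (t5.x a).N n} := by
      rintro _ ⟨i, rfl⟩ _ ⟨j, rfl⟩
      obtain ⟨s1, hs1, h8⟩ := mem_fimp.1 (hR3 i (f i)) t5
        (ht5.trans (ht4.trans (ht3.trans ht2)))
        (down_meets _ _ (hf i) _ (ht5.trans (ht4.trans ht3)))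
      obtain ⟨s2, hs2, h9⟩ := mem_fimp.1 (hG3 j (g j)) s1 (hs1.trans (ht5.trans ht4))
        (down_meets _ _ (hg j) _ (hs1.trans ht5))
      obtain ⟨s3, hs3, h10⟩ := mem_fimp.1 (h (g j) (f i)) s2
        (hs2.trans (hs1.trans (ht5.trans (ht4.trans (ht3.trans (ht2.trans ht1))))))
        ⟨h9, down_meets _ _ h8 _ hs2⟩
      have h11 : g j ≤ t5.top := (hub j).le.trans h5
      have h12 : s3 ≤ t5 := hs3.trans (hs2.trans hs1)
      obtain ⟨n, hn⟩ := of_mem_meets_gen (h11.trans h12.1) h10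
      refine ⟨n, ?_⟩
      rwa [h12.2 _ h11] at hn
    have h8 := mk_le_mk_of_subset h7
    rw [mk_range_eq f hinj] at h8
    exact absurd (h8.trans_lt h6) (by simp)

end

section

/-- The polarized partition relation `(κ, κ) → (η₀, η₁; η₂, η₃)`: for every partition of `S × S`,
where `|S| = κ`, into two classes `Δ₀` and `Δ₁` there are `H₁, H₂ ⊆ S` with `|H₁| = η₀`,
`|H₂| = η₂` and `H₁ × H₂ ⊆ Δ₀`, or with `|H₁| = η₁`, `|H₂| = η₃` and `H₁ × H₂ ⊆ Δ₁`. -/
def PolarArrow (κ η₀ η₁ η₂ η₃ : Cardinal.{u}) : Prop :=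
  ∀ S : Type u, #S = κ → ∀ Δ₀ Δ₁ : Set (S × S), Δ₀ ∪ Δ₁ = Set.univ → Disjoint Δ₀ Δ₁ →
    (∃ H₁ H₂ : Set S, #H₁ = η₀ ∧ #H₂ = η₂ ∧ H₁ ×ˢ H₂ ⊆ Δ₀) ∨
    (∃ H₁ H₂ : Set S, #H₁ = η₁ ∧ #H₂ = η₃ ∧ H₁ ×ˢ H₂ ⊆ Δ₁)

variable {M : Type u} [LinearOrder M] [OrderBot M] {lam : Cardinal.{u}} {c : M → Cardinal.{u}}

theorem nonempty_cond [Countable M] (hS : Setup lam c) : Nonempty (Cond lam c) := by
  obtain ⟨b0, _⟩ := exists_bound hS.inf_lam (ι := PUnit.{u+1})
      (by rw [mk_punit]; exact one_le_aleph0.trans hS.inf_lam)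
      (fun _ => Classical.choice (mk_ne_zero_iff.1 (by
        rw [mk_Lam]; exact (aleph0_pos.trans_le (hS.inf_lam.trans (Order.le_succ _))).ne')))
  obtain ⟨b, _, hb⟩ := (wellFounded_lt (α := Lam lam)).has_min Set.univ ⟨b0, trivial⟩
  have hb' : ∀ a, ¬ a < b := fun a => hb a trivial
  obtain ⟨q, _⟩ := exists_cond hS (fun _ => ⟨fun _ => ⊥, ∅, fun _ => ∅⟩) b
    (fun a ha => absurd ha (hb' a)) (fun _ => ⊥)
    (by
      intro n
      have : {a : Lam lam | a < b ∧ (⊥ : M) ≤ n} = ∅ := by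
        ext a
        simp [hb' a]
      rw [this]
      simp)
    (fun a g _ h => absurd h (hb' g)) (fun a g _ h => absurd h (hb' g)) ∅ (by simp)
  exact ⟨q⟩

/-- given a function `d` and an enumeration, the whole construction can be carried out -/
theorem exists_total [Countable M] (hS : Setup lam c) (d : Lam lam → Lam lam → M)
    (hD1 : ∀ b n, #{a | a < b ∧ d b a ≤ n} ≤ c n)
    (hD2 : ∀ a g b, a < g → g < b → d g a ≤ max (d b a) (d b g))
    (A : Lam lam → Set (Lam lam)) (hA : ∀ b, #(A b) ≤ lam) :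
    ∃ x : Lam lam → Dat (Lam lam) M, ∀ b, Good0 c x b ∧ (x b).A = A b := by
  classical
  obtain ⟨F, hF⟩ := exists_rec (I := Lam lam) (X := Dat (Lam lam) M)
    (fun b f y => ∃ x : Lam lam → Dat (Lam lam) M, (∀ a (h : a < b), x a = f a h) ∧ x b = y ∧
      Good0 c x b ∧ y.A = A b ∧ ∀ a < b, y.d a = d b a) (by
    intro b f ih
    let x0 : Lam lam → Dat (Lam lam) M := fun a =>
      if h : a < b then f a h else ⟨fun _ => ⊥, ∅, fun _ => ∅⟩
    have hx0 : ∀ a (h : a < b), x0 a = f a h := fun a h => dif_pos h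
    have hg : ∀ a < b, Good0 c x0 a := by
      intro a ha
      obtain ⟨x, h1, h2, h3, _⟩ := ih a ha
      refine h3.congr fun g hg => ?_
      rcases hg.eq_or_lt with rfl | h
      · rw [hx0 g ha, h2]
      · rw [hx0 g (h.trans ha), h1 g h]
    have hd0 : ∀ a < b, (x0 a).d a = ⊥ := fun a ha => (hg a ha).d0
    have hd : ∀ a g, a < g → g < b → (x0 g).d a = d g a := by
      intro a g hag hgb
      obtain ⟨x, h1, h2, h3, h4, h5⟩ := ih g hgb
      rw [hx0 g hgb]
      exact h5 a hag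
    obtain ⟨y, hy1, hy2, hy3, hy4⟩ := attach0 hS x0 b hg (d b) (hD1 b)
      (by
        intro a g h1 h2
        rcases h1.eq_or_lt with rfl | h
        · rw [hd0 a h2]
          exact bot_le
        · rw [hd a g h h2]
          exact hD2 a g b h h2) (A b) (hA b)
    exact ⟨y b, y, fun a ha => (hy1 a ha).trans (hx0 a ha), rfl, hy2, hy3, hy4⟩)
  refine ⟨F, fun b => ?_⟩
  obtain ⟨x, h1, h2, h3, h4, _⟩ := hF b
  refine ⟨h3.congr fun g hg => ?_, h4⟩
  rcases hg.eq_or_lt with rfl | h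
  · exact h2.symm
  · exact (h1 g h).symm

theorem outright [WellFoundedLT M] [Countable M] (hS : Setup lam c) (hl : ℵ₀ < lam)
    (h2 : 2 ^ lam = Order.succ lam) (d : Lam lam → Lam lam → M)
    (hD1 : ∀ b n, #{a | a < b ∧ d b a ≤ n} ≤ c n)
    (hD2 : ∀ a g b, a < g → g < b → d g a ≤ max (d b a) (d b g)) :
    ¬ PolarArrow (Order.succ lam) (Order.succ lam) (ℵ_ 1) lam lam := by
  classical
  -- an enumeration of the sets of size `lam`
  have henum : ∃ A : Lam lam → Set (Lam lam), (∀ b, #(A b) ≤ lam) ∧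
      ∀ B : Set (Lam lam), #B = lam → ∃ ξ, A ξ = B := by
    have hinf : Infinite (Lam lam) := infinite_iff.2 (by
      rw [mk_Lam]; exact hS.inf_lam.trans (Order.le_succ _))
    have h3 : #{B : Set (Lam lam) // #B ≤ lam} ≤ #(Lam lam) := by
      refine (mk_bounded_set_le_of_infinite (Lam lam) lam).trans ?_
      rw [mk_Lam, ← h2, ← power_mul, mul_eq_self hS.inf_lam]
    obtain ⟨e⟩ := h3
    have hne : Nonempty {B : Set (Lam lam) // #B ≤ lam} := ⟨⟨∅, by simp⟩⟩
    refine ⟨fun ξ => (Function.invFun e ξ).1, fun b => (Function.invFun e b).2,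
      fun B hB => ⟨e ⟨B, hB.le⟩, ?_⟩⟩
    exact congrArg Subtype.val (Function.leftInverse_invFun e.injective ⟨B, hB.le⟩)
  obtain ⟨A, hAl, hA⟩ := henum
  obtain ⟨x, hx⟩ := exists_total hS d hD1 hD2 A hAl
  intro harr
  rcases harr (Lam lam) mk_Lam {p | ¬ ∃ n, p.2 ∈ (x p.1).N n} {p | ∃ n, p.2 ∈ (x p.1).N n}
    (by ext p; simp only [mem_union, mem_ofPred_eq, mem_univ, iff_true]; exact (em _).symm)
    (by
      rw [Set.disjoint_left]
      intro p h1 h2
      exact h1 h2) with ⟨X, B, hX, hB, h⟩ | ⟨X, B, hX, hB, h⟩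
  · obtain ⟨ξ, hξ⟩ := hA B hB
    obtain ⟨ub, hub⟩ := exists_bound hS.inf_lam (ι := B) hB.le (fun b => b.1)
    obtain ⟨a, haX, ha⟩ : ∃ a ∈ X, max ξ ub < a := by
      by_contra hc'
      push Not at hc'
      have h3 : #X ≤ lam := (mk_le_mk_of_subset (show X ⊆ Iic (max ξ ub) from hc')).trans
        (mk_Iic_le hS.inf_lam _)
      rw [hX] at h3
      exact absurd h3 (not_le.2 (Order.lt_succ _))
    obtain ⟨n, b, hb, hbn⟩ := (hx a).1.n4 ξ ((le_max_left _ _).trans_lt ha)
      (by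
        rw [(hx ξ).2, hξ]
        intro b hb
        exact (hub ⟨b, hb⟩).trans ((le_max_right _ _).trans_lt ha))
      (by rw [(hx ξ).2, hξ, hB])
    rw [(hx ξ).2, hξ] at hb
    exact h (Set.mk_mem_prod haX hb) ⟨n, hbn⟩
  · have h1 : ℵ_ 1 ≤ lam := by
      rw [← succ_aleph0]
      exact Order.succ_le_of_lt hl
    obtain ⟨ub, hub⟩ := exists_bound hS.inf_lam (ι := X) (by rw [hX]; exact h1) (fun b => b.1)
    have h6 := small_inter hS x ub (fun b _ => (hx b).1) X (fun a ha => (hub ⟨a, ha⟩).le)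
      (by
        rw [hX, ← succ_aleph0]
        exact Order.lt_succ _)
    have h7 : B ⊆ {y | ∀ a ∈ X, ∃ n, y ∈ (x a).N n} := fun y hy a ha =>
      h (Set.mk_mem_prod ha hy)
    have h8 := mk_le_mk_of_subset h7
    rw [hB] at h8
    exact absurd (h8.trans_lt h6) (lt_irrefl _)

end

section

section
variable {P : Type u} [Preorder P]

/-- `φ if and only if ψ`. -/
def fiff (φ ψ : Set P) : Set P := fand (fimp φ ψ) (fimp ψ φ)

theorem fimp_of {φ ψ : Set P} {p : P} (h : ∀ q ≤ p, q ∈ φ → q ∈ ψ) : p ∈ fimp φ ψ :=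
  mem_fimp.2 fun q hq h' => ⟨q, le_rfl, h q hq h'⟩

/-- decided equivalence -/
theorem fiff_of_decided {φ ψ : Set P} (hφ : Down φ) (hψ : Down ψ) {p : P}
    (h : (p ∈ φ ∧ p ∈ ψ) ∨ (p ∈ fnot φ ∧ p ∈ fnot ψ)) : p ∈ fiff φ ψ := by
  rcases h with ⟨h1, h2⟩ | ⟨h1, h2⟩
  · exact ⟨fimp_of fun q hq _ => hψ _ h2 _ hq, fimp_of fun q hq _ => hφ _ h1 _ hq⟩
  · exact ⟨fimp_of fun q hq h => absurd h (h1 q hq), fimp_of fun q hq h => absurd h (h2 q hq)⟩

variable (P)

/-- `2 ^ |L| ≤ |S|` holds in the extension: some family of subsets of `L` indexed by `S` contains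
every subset of `L`. -/
def PowLe (L S : Type u) : Set P :=
  fex fun E : S → L → Set P => fall fun x : L → Set P => fex fun a : S =>
    fall fun n : L => fiff (meets (x n)) (meets (E a n))

end

variable {M : Type u} [LinearOrder M] [OrderBot M] {lam : Cardinal.{u}} {c : M → Cardinal.{u}}

theorem powLe [WellFoundedLT M] [Countable M] (hS : Setup lam c) (p : Cond lam c) :
    p ∈ PowLe (Cond lam c) lam.ord.ToType (Lam lam) := by
  classical
  have h0 : #(lam.ord.ToType) ≤ #(Lam lam) := by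
    rw [mk_Lam]
    simpa using Order.le_succ lam
  obtain ⟨e⟩ := h0
  refine mem_fex.2 fun q _ => ⟨q, le_rfl, fun a n => {t | a ≤ t.top ∧ e n ∈ (t.x a).A}, fun x =>
    mem_fex.2 fun r _ => ?_⟩
  obtain ⟨t, ht, h1⟩ := meet_many hS (ι := lam.ord.ToType) (by simp)
    (fun n => {s | s ∈ meets (x n) ∨ s ∈ fnot (meets (x n))})
    (by
      rintro n s (hs | hs) s' hs'
      · exact Or.inl (down_meets _ _ hs _ hs')
      · exact Or.inr (down_fnot _ _ hs _ hs')) r
    (by
      intro n s _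
      by_cases h2 : ∃ s' ≤ s, s' ∈ meets (x n)
      · obtain ⟨s', hs', hx⟩ := h2
        exact ⟨s', hs', Or.inl hx⟩
      · push Not at h2
        exact ⟨s, le_rfl, Or.inr fun s' hs' => h2 s' hs'⟩)
  obtain ⟨t', ht', _, _, hA⟩ := one_more hS t t le_rfl {b | ∃ n, b = e n ∧ t ∈ meets (x n)}
    (by
      refine (mk_le_mk_of_subset (t := range e) ?_).trans (mk_range_le.trans (by simp))
      rintro _ ⟨n, rfl, _⟩
      exact mem_range_self n)
  refine ⟨t', ht'.trans ht, t'.top, fun n => fiff_of_decided (down_meets _) (down_meets _) ?_⟩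
  rcases h1 n with h8 | h8
  · refine Or.inl ⟨down_meets _ _ h8 _ ht', fun s hs => ⟨s, le_rfl, t', ⟨le_rfl, ?_⟩, hs⟩⟩
    rw [hA]
    exact ⟨n, rfl, h8⟩
  · refine Or.inr ⟨down_fnot _ _ h8 _ ht', ?_⟩
    intro s hs h
    obtain ⟨s1, hs1, s2, ⟨hs2, hs3⟩, hs4⟩ := h s le_rfl
    rw [← hs4.2 t'.top hs2, (hs1.trans hs).2 t'.top le_rfl, hA] at hs3
    obtain ⟨m, hm, h9⟩ := hs3
    have := e.injective hm
    subst this
    exact h8 t le_rfl h9

/-- the number of the conditions -/
theorem mk_cond_le [Countable M] (hS : Setup lam c) : #(Cond lam c) ≤ 2 ^ lam := by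
  classical
  have hl := hS.inf_lam
  have hM : #M ≤ lam := (mk_le_aleph0_iff.2 inferInstance).trans hl
  let W : Type u := (Lam lam × Lam lam) × ((M ⊕ PUnit.{u + 1}) ⊕ M)
  have hC : #((M ⊕ PUnit.{u + 1}) ⊕ M) ≤ lam := by
    rw [mk_sum, mk_sum]
    simp only [Cardinal.lift_id, mk_punit]
    exact add_le_of_le hl (add_le_of_le hl hM (one_le_aleph0.trans hl)) hM
  let φ : Cond lam c → Set W := fun p => {w | w.1.1 ≤ p.top ∧ w.1.2 ∈ Iic w.1.1 ∪ (p.x w.1.1).A ∧
    ((∃ n, w.2 = Sum.inl (Sum.inl n) ∧ w.1.2 ≤ w.1.1 ∧ (p.x w.1.1).d w.1.2 = n) ∨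
      (w.2 = Sum.inl (Sum.inr PUnit.unit) ∧ w.1.2 ∈ (p.x w.1.1).A) ∨
      (∃ n, w.2 = Sum.inr n ∧ w.1.2 ∈ (p.x w.1.1).N n))}
  have hφ : ∀ p, #(φ p) ≤ lam := by
    intro p
    have h1 : φ p ⊆ ⋃ a : Iic p.top, ⋃ z : (Iic a.1 ∪ (p.x a.1).A : Set (Lam lam)),
        range fun s : (M ⊕ PUnit.{u + 1}) ⊕ M => (((a.1, z.1), s) : W) := by
      rintro ⟨⟨a, z⟩, s⟩ ⟨h1, h2, _⟩
      exact mem_iUnion.2 ⟨⟨a, h1⟩, mem_iUnion.2 ⟨⟨z, h2⟩, mem_range_self s⟩⟩
    refine (mk_le_mk_of_subset h1).trans ?_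
    refine (mk_iUnion_le_sum_mk.trans (sum_le_mk_mul_iSup _)).trans ?_
    refine mul_le_of_le hl (mk_Iic_le hl _) (ciSup_le' fun a => ?_)
    refine (mk_iUnion_le_sum_mk.trans (sum_le_mk_mul_iSup _)).trans ?_
    refine mul_le_of_le hl ?_ (ciSup_le' fun z => mk_range_le.trans hC)
    exact (mk_union_le _ _).trans (add_le_of_le hl (mk_Iic_le hl _) (p.good a.1 a.2).a1)
  have hinj : Function.Injective φ := by
    have key : ∀ p q, φ p = φ q → p.top ≤ q.top ∧ ∀ a ≤ p.top, p.x a = q.x a := by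
      intro p q hpq
      have h1 : p.top ≤ q.top := by
        have h2 : (((p.top, p.top), Sum.inl (Sum.inl ⊥)) : W) ∈ φ p :=
          ⟨le_rfl, Or.inl (mem_Iic.2 le_rfl), Or.inl ⟨⊥, rfl, le_rfl, (p.good _ le_rfl).d0⟩⟩
        rw [hpq] at h2
        exact h2.1
      refine ⟨h1, fun a ha => ?_⟩
      have ha' := ha.trans h1
      have hd : (p.x a).d = (q.x a).d := by
        funext z
        rcases le_or_gt z a with hz | hz
        · have h2 : (((a, z), Sum.inl (Sum.inl ((p.x a).d z))) : W) ∈ φ p :=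
            ⟨ha, Or.inl (mem_Iic.2 hz), Or.inl ⟨_, rfl, hz, rfl⟩⟩
          rw [hpq] at h2
          obtain ⟨_, _, h3⟩ := h2
          rcases h3 with ⟨n, h3, _, h4⟩ | ⟨h3, _⟩ | ⟨n, h3, _⟩
          · have h5 := Sum.inl.inj (Sum.inl.inj h3)
            rw [h5]
            exact h4.symm
          · cases h3
          · cases h3
        · rw [(p.good a ha).dj z hz, (q.good a ha').dj z hz]
      have hA : (p.x a).A = (q.x a).A := by
        ext z
        constructor
        · intro hz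
          have h2 : (((a, z), Sum.inl (Sum.inr PUnit.unit)) : W) ∈ φ p :=
            ⟨ha, Or.inr hz, Or.inr (Or.inl ⟨rfl, hz⟩)⟩
          rw [hpq] at h2
          obtain ⟨_, _, h3⟩ := h2
          rcases h3 with ⟨n, h3, _, h4⟩ | ⟨h3, h4⟩ | ⟨n, h3, _⟩
          · cases h3
          · exact h4
          · cases h3
        · intro hz
          have h2 : (((a, z), Sum.inl (Sum.inr PUnit.unit)) : W) ∈ φ q :=
            ⟨ha', Or.inr hz, Or.inr (Or.inl ⟨rfl, hz⟩)⟩
          rw [← hpq] at h2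
          obtain ⟨_, _, h3⟩ := h2
          rcases h3 with ⟨n, h3, _, h4⟩ | ⟨h3, h4⟩ | ⟨n, h3, _⟩
          · cases h3
          · exact h4
          · cases h3
      have hN : (p.x a).N = (q.x a).N := by
        funext n
        ext z
        constructor
        · intro hz
          have h2 : (((a, z), Sum.inr n) : W) ∈ φ p :=
            ⟨ha, Or.inl (mem_Iic.2 ((p.good a ha).n1 n z hz).le), Or.inr (Or.inr ⟨n, rfl, hz⟩)⟩
          rw [hpq] at h2
          obtain ⟨_, _, h3⟩ := h2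
          rcases h3 with ⟨n, h3, _, h4⟩ | ⟨h3, h4⟩ | ⟨n, h3, h4⟩
          · cases h3
          · cases h3
          · have h5 := Sum.inr.inj h3
            rw [h5]
            exact h4
        · intro hz
          have h2 : (((a, z), Sum.inr n) : W) ∈ φ q :=
            ⟨ha', Or.inl (mem_Iic.2 ((q.good a ha').n1 n z hz).le), Or.inr (Or.inr ⟨n, rfl, hz⟩)⟩
          rw [← hpq] at h2
          obtain ⟨_, _, h3⟩ := h2
          rcases h3 with ⟨n, h3, _, h4⟩ | ⟨h3, h4⟩ | ⟨n, h3, h4⟩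
          · cases h3
          · cases h3
          · have h5 := Sum.inr.inj h3
            rw [h5]
            exact h4
      revert hd hA hN
      cases p.x a
      cases q.x a
      rintro rfl rfl rfl
      rfl
    intro p q hpq
    obtain ⟨h1, h2⟩ := key p q hpq
    obtain ⟨h3, _⟩ := key q p hpq.symm
    have h4 : p.top = q.top := le_antisymm h1 h3
    have h5 : p.x = q.x := by
      funext a
      rcases le_or_gt a p.top with ha | ha
      · exact h2 a ha
      · rw [p.junk a ha, q.junk a (h4 ▸ ha)]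
    cases p
    cases q
    cases h4
    cases h5
    rfl
  have hW : #W ≤ 2 ^ lam := by
    change #((Lam lam × Lam lam) × ((M ⊕ PUnit.{u + 1}) ⊕ M)) ≤ _
    have h1 : #(Lam lam) ≤ 2 ^ lam := by
      rw [mk_Lam]
      exact Order.succ_le_of_lt (cantor lam)
    have h2 : ℵ₀ ≤ 2 ^ lam := hl.trans (cantor lam).le
    rw [mk_prod, mk_prod]
    simp only [Cardinal.lift_id]
    exact mul_le_of_le h2 (mul_le_of_le h2 h1 h1) (hC.trans (cantor lam).le)
  have hWi : Infinite W := by
    refine infinite_iff.2 ?_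
    have h1 : #(Lam lam) ≤ #W := by
      refine mk_le_of_injective (f := fun a => (((a, a), Sum.inr ⊥) : W)) ?_
      intro a b hab
      exact congrArg (fun w : W => w.1.1) hab
    rw [mk_Lam] at h1
    exact (hl.trans (Order.le_succ _)).trans h1
  calc #(Cond lam c) ≤ #{t : Set W // #t ≤ lam} :=
        mk_le_of_injective (f := fun p => (⟨φ p, hφ p⟩ : {t : Set W // #t ≤ lam}))
          fun p q h => hinj (congrArg Subtype.val h)
    _ ≤ #W ^ lam := mk_bounded_set_le_of_infinite W lam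
    _ ≤ (2 ^ lam) ^ lam := power_le_power_right hW
    _ = 2 ^ lam := by rw [← power_mul, mul_eq_self hl]

/-- There is a function `d` which attaches a level `d b a < cf λ` to every pair `a < b < λ⁺`, such
that for every `n < cf λ` the numbers of the `a < b` of level at most `n` are bounded below `λ`,
and `d g a ≤ max (d b a) (d b g)` for `a < g < b`. -/
def HasSubadditive (lam : Cardinal.{u}) : Prop :=
  ∃ (k : lam.ord.cof.ord.ToType → Cardinal.{u}) (d : Lam lam → Lam lam → lam.ord.cof.ord.ToType),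
    (∀ n, k n < lam) ∧ (∀ b n, #{a | a < b ∧ d b a ≤ n} ≤ k n) ∧
    (∀ a g b, a < g → g < b → d g a ≤ max (d b a) (d b g))

theorem cof_facts {lam : Cardinal.{u}} (h1 : lam.ord.cof = ℵ₀) :
    Countable lam.ord.cof.ord.ToType ∧ Nonempty lam.ord.cof.ord.ToType := by
  have h2 : #(lam.ord.cof.ord.ToType) = ℵ₀ := by simp [h1]
  refine ⟨mk_le_aleph0_iff.1 h2.le, ?_⟩
  rw [← mk_ne_zero_iff, h2]
  exact aleph0_pos.ne'

/-- the main theorem on the forced failure -/
theorem exists_forcing (lam : Cardinal.{u}) (h0 : ℵ₀ < lam) (h1 : lam.ord.cof = ℵ₀) :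
    ∃ (P : Type u) (_ : Preorder P), Nonempty P ∧ #P ≤ 2 ^ lam ∧
      NoNewFunctions P lam.ord.ToType ∧
      (∀ p : P, p ∈ PowLe P lam.ord.ToType (Order.succ lam).ord.ToType) ∧
      ∀ p : P, p ∈ NotPolar P (Order.succ lam).ord.ToType lam.ord.ToType
        (ℵ_ 1 : Cardinal.{u}).ord.ToType := by
  obtain ⟨c, hS⟩ := exists_setup lam h0.le (h1 ▸ h0)
  obtain ⟨hc, hne⟩ := cof_facts h1
  let _ : OrderBot lam.ord.cof.ord.ToType := WellFoundedLT.toOrderBot _
  refine ⟨Cond lam c, inferInstance, nonempty_cond hS, mk_cond_le hS, ?_, powLe hS,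
    forced hS ?_ ?_⟩
  · intro Y R p hp
    exact decide_fun hS (by simp) R p hp
  · rw [mk_toType, card_ord, ← succ_aleph0]
    exact Order.lt_succ _
  · rw [mk_toType, card_ord, ← succ_aleph0]
    exact Order.succ_le_of_lt h0

/-- the main theorem on the failure under a combinatorial hypothesis -/
theorem not_polar (lam : Cardinal.{u}) (h0 : ℵ₀ < lam) (h1 : lam.ord.cof = ℵ₀)
    (h3 : 2 ^ lam = Order.succ lam) (h4 : HasSubadditive lam) :
    ¬ PolarArrow (Order.succ lam) (Order.succ lam) (ℵ_ 1) lam lam := by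
  obtain ⟨c, hS⟩ := exists_setup lam h0.le (h1 ▸ h0)
  obtain ⟨hc, hne⟩ := cof_facts h1
  let _ : OrderBot lam.ord.cof.ord.ToType := WellFoundedLT.toOrderBot _
  have hμ : ℵ₀ ≤ lam.ord.cof := h1.ge
  have hM' : ∀ m : lam.ord.cof.ord.ToType, #(Iio m) < lam.ord.cof := fun m => mk_Iio_ord_lt m
  obtain ⟨k, d, hk, hd1, hd2⟩ := h4
  have hS' : Setup lam (fun n => max (c n) (⨆ m : Iic n, k m.1)) := by
    have hb : ∀ n, BddAbove (range fun m : Iic n => k m.1) := fun n => bddAbove_of_small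
    refine ⟨fun n => (hS.inf n).trans (le_max_left _ _), ?_, ?_, ?_, hS.lim⟩
    · intro a b hab
      refine max_le_max (hS.mono hab) ?_
      exact ciSup_le' fun m => le_ciSup (hb b) ⟨m.1, (show m.1 ≤ a from m.2).trans hab⟩
    · intro n
      refine max_lt (hS.lt n) ?_
      refine iSup_lt_of_lt_cof_ord ?_ fun m => hk m.1
      have : Iic n = insert n (Iio n) := by
        ext x
        simp [le_iff_eq_or_lt]
      rw [this]
      exact (mk_insert_le).trans_lt (add_lt_of_lt hμ (hM' n) (one_lt_aleph0.trans_le hμ))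
    · intro ν hν
      obtain ⟨n, hn⟩ := hS.cof ν hν
      exact ⟨n, hn.trans (le_max_left _ _)⟩
  refine outright hS' h0 h3 d (fun b n => ?_) hd2
  refine (hd1 b n).trans (le_trans ?_ (le_max_right _ _))
  exact le_ciSup (f := fun m : Iic n => k m.1) bddAbove_of_small ⟨n, mem_Iic.2 le_rfl⟩

end

end Pool.Agent.Helper980.Polar
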