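import Pool.Agent.Helper980.Polar.Main

/-!
# The polarized relation `(λ, λ⁺) → (λ, λ; λ⁺, ℵ₁)` for singular `λ` of cofinality `ω`

The generic partition of `λ⁺ × λ⁺` of the file `Main.lean`, restricted to `λ` in the second
coordinate, shows that this relation fails in the extension.
-/

namespace Pool.Agent.Helper980.Polar
open Cardinal Ordinal Set

universe u v w

section

variable (P : Type u) [Preorder P]

/-- The relation `(|K|, |S|) → (|K|, |K|; |S|, |I|)` fails in the extension: there is a partition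
of `K × S` into two classes `Δ₀` and `Δ₁` (the membership of `(x, y)` in `Δ₁` is named by `F x y`)
such that for all `A ⊆ K` and `B ⊆ S`, if `A` has at least `|K|` elements and `B` has at least
`|S|` elements then `A × B` is not a subset of `Δ₀`, and if `A` has at least `|K|` elements and `B`
has at least `|I|` elements then `A × B` is not a subset of `Δ₁`. -/
def NotR (K S I : Type u) : Set P :=
  fex fun F : K → S → Set P =>
    fand
      (fall fun A : K → Set P => fall fun B : S → Set P =>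
        fimp (fand (AtLeast K fun x => meets (A x)) (AtLeast S fun y => meets (B y)))
          (fnot (fall fun x => fall fun y =>
            fimp (fand (meets (A x)) (meets (B y))) (fnot (meets (F x y))))))
      (fall fun A : K → Set P => fall fun B : S → Set P =>
        fimp (fand (AtLeast K fun x => meets (A x)) (AtLeast I fun y => meets (B y)))
          (fnot (fall fun x => fall fun y =>
            fimp (fand (meets (A x)) (meets (B y))) (meets (F x y)))))

end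

section

variable {M : Type u} [LinearOrder M] [OrderBot M] {lam : Cardinal.{u}} {c : M → Cardinal.{u}}

theorem forcedR [WellFoundedLT M] [Countable M] (hS : Setup lam c) {Om : Type u}
    (hI : ℵ₀ < #Om) (hIl : #Om ≤ lam) (p : Cond lam c) :
    p ∈ NotR (P := Cond lam c) lam.ord.ToType (Lam lam) Om := by
  classical
  obtain ⟨e⟩ : #(lam.ord.ToType) ≤ #(Lam lam) := by
    rw [mk_Lam]
    simpa using Order.le_succ lam
  refine mem_fex.2 fun q _ => ⟨q, le_rfl, fun y a => gen a (e y), ?_, ?_⟩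
  · intro Y X
    refine mem_fimp.2 fun r _ hr => ⟨r, le_rfl, ?_⟩
    intro t ht h
    obtain ⟨t1, ht1, R, ⟨hR1, hR2⟩, hR3⟩ := mem_fex.1 hr.1 t ht
    obtain ⟨t2, ht2, f, hf⟩ := decide_fun hS (A := lam.ord.ToType) (by simp) R t1 hR1
    have hinj : Function.Injective f := by
      intro i i' hii
      obtain ⟨_, _, h3⟩ := mem_fimp.1 (hR2 i i' (f i)) t2 ht2 ⟨hf i, by rw [hii]; exact hf i'⟩
      exact h3
    have hinj' : Function.Injective fun i => e (f i) := fun i j h => hinj (e.injective h)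
    obtain ⟨ub, hub⟩ := exists_bound hS.inf_lam (ι := lam.ord.ToType) (by simp) fun i => e (f i)
    obtain ⟨t3, ht3, _, _, hA⟩ := one_more hS t2 t2 le_rfl (range fun i => e (f i))
      (mk_range_le.trans (by simp))
    obtain ⟨t4, ht4, G, ⟨hG1, hG2⟩, hG3⟩ := mem_fex.1 hr.2 t3
      (ht3.trans (ht2.trans (ht1.trans ht)))
    -- the set named by `X` is unbounded
    have hX : ∃ s ≤ t4, ∃ a, max t3.top ub < a ∧ s ∈ meets (X a) := by
      by_contra hc
      push Not at hc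
      obtain ⟨s0, hs0, h1⟩ := meet_many hS (mk_Iic_le hS.inf_lam (max t3.top ub))
        (fun y => {s | (∃ x, s ∈ meets (G x y.1)) ∨ ∀ x, s ∈ fnot (meets (G x y.1))})
        (by
          rintro y s (⟨x, hx⟩ | hx) s' hs'
          · exact Or.inl ⟨x, down_meets _ _ hx _ hs'⟩
          · exact Or.inr fun x => down_fnot _ _ (hx x) _ hs') t4
        (by
          intro y s _
          by_cases h2 : ∃ s' ≤ s, ∃ x, s' ∈ meets (G x y.1)
          · obtain ⟨s', hs', hx⟩ := h2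
            exact ⟨s', hs', Or.inl hx⟩
          · push Not at h2
            exact ⟨s, le_rfl, Or.inr fun x s' hs' => h2 s' hs' x⟩)
      have h2 : ∀ y : Iic (max t3.top ub), ∃ g : Lam lam, s0 ∈ meets (G g y.1) ∨
          ∀ x, s0 ∈ fnot (meets (G x y.1)) := by
        intro y
        rcases h1 y with ⟨x, hx⟩ | hx
        · exact ⟨x, Or.inl hx⟩
        · exact ⟨y.1, Or.inr hx⟩
      choose g hg using h2
      obtain ⟨x, hx⟩ := exists_bound hS.inf_lam (mk_Iic_le hS.inf_lam (max t3.top ub)) g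
      obtain ⟨s1, hs1, y, hy⟩ := mem_fex.1 (hG1.1 x) s0 hs0
      obtain ⟨s2, hs2, hy2⟩ := mem_fimp.1 (hG3 x y) s1 (hs1.trans hs0) hy
      have hyb : y ≤ max t3.top ub := by
        by_contra h3
        exact hc s2 (hs2.trans (hs1.trans hs0)) y (not_le.1 h3) hy2
      rcases hg ⟨y, hyb⟩ with h3 | h3
      · obtain ⟨_, _, h4⟩ := mem_fimp.1 (hG2 x (g ⟨y, hyb⟩) y) s1 (hs1.trans hs0)
          ⟨hy, down_meets _ _ h3 _ hs1⟩
        have h5 : x = g ⟨y, hyb⟩ := h4
        exact absurd (hx ⟨y, hyb⟩) (by rw [← h5]; exact lt_irrefl _)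
      · exact h3 x s1 hs1 hy
    obtain ⟨s, hs, a, ha, hsa⟩ := hX
    obtain ⟨s', hs', ha'⟩ := exists_longer hS a s
    have hs3 : s' ≤ t3 := hs'.trans (hs.trans ht4)
    have h3a : t3.top < a := (le_max_left _ _).trans_lt ha
    have hA' : (s'.x t3.top).A = range fun i => e (f i) := by
      rw [hs3.2 t3.top le_rfl]
      exact hA
    obtain ⟨n, b, hb, hbn⟩ := (s'.good a ha').n4 t3.top h3a
      (by
        rw [hA']
        rintro _ ⟨i, rfl⟩
        exact (hub i).trans ((le_max_right _ _).trans_lt ha))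
      (by
        rw [hA', mk_range_eq _ hinj']
        simp)
    rw [hA'] at hb
    obtain ⟨i, rfl⟩ := hb
    obtain ⟨s1, hs1, h1⟩ := mem_fimp.1 (hR3 i (f i)) s' (hs3.trans (ht3.trans ht2))
      (down_meets _ _ (hf i) _ (hs3.trans ht3))
    obtain ⟨s2, hs2, h2⟩ := mem_fimp.1 (h (f i) a) s1
      (hs1.trans (hs3.trans (ht3.trans (ht2.trans ht1))))
      ⟨h1, down_meets _ _ hsa _ (hs1.trans hs')⟩
    exact h2 s2 le_rfl (down_meets _ _ (mem_meets_gen ha' hbn) _ (hs2.trans hs1))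
  · intro Y X
    refine mem_fimp.2 fun r _ hr => ⟨r, le_rfl, ?_⟩
    intro t ht h
    obtain ⟨t1, ht1, R, ⟨hR1, hR2⟩, hR3⟩ := mem_fex.1 hr.1 t ht
    obtain ⟨t2, ht2, f, hf⟩ := decide_fun hS (A := lam.ord.ToType) (by simp) R t1 hR1
    have hinj : Function.Injective f := by
      intro i i' hii
      obtain ⟨_, _, h3⟩ := mem_fimp.1 (hR2 i i' (f i)) t2 ht2 ⟨hf i, by rw [hii]; exact hf i'⟩
      exact h3
    obtain ⟨t3, ht3, G, ⟨hG1, hG2⟩, hG3⟩ := mem_fex.1 hr.2 t2 (ht2.trans (ht1.trans ht))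
    obtain ⟨t4, ht4, g, hg⟩ := decide_fun hS (A := Om) hIl G t3 hG1
    have hinj' : Function.Injective g := by
      intro i i' hii
      obtain ⟨_, _, h3⟩ := mem_fimp.1 (hG2 i i' (g i)) t4 ht4 ⟨hg i, by rw [hii]; exact hg i'⟩
      exact h3
    obtain ⟨ub, hub⟩ := exists_bound hS.inf_lam (ι := Om) hIl g
    obtain ⟨t5, ht5, h5⟩ := exists_longer hS ub t4
    have h6 := small_inter hS t5.x t5.top (fun b hb => (t5.good b hb).toGood0) (range g)
      (by
        rintro _ ⟨i, rfl⟩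
        exact (hub i).le.trans h5)
      (by rwa [mk_range_eq g hinj'])
    have hinje : Function.Injective fun i => e (f i) := fun i j h => hinj (e.injective h)
    have h7 : (range fun i => e (f i)) ⊆ {y | ∀ a ∈ range g, ∃ n, y ∈ (t5.x a).N n} := by
      rintro _ ⟨i, rfl⟩ _ ⟨j, rfl⟩
      obtain ⟨s1, hs1, h8⟩ := mem_fimp.1 (hR3 i (f i)) t5
        (ht5.trans (ht4.trans (ht3.trans ht2)))
        (down_meets _ _ (hf i) _ (ht5.trans (ht4.trans ht3)))
      obtain ⟨s2, hs2, h9⟩ := mem_fimp.1 (hG3 j (g j)) s1 (hs1.trans (ht5.trans ht4))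
        (down_meets _ _ (hg j) _ (hs1.trans ht5))
      obtain ⟨s3, hs3, h10⟩ := mem_fimp.1 (h (f i) (g j)) s2
        (hs2.trans (hs1.trans (ht5.trans (ht4.trans (ht3.trans (ht2.trans ht1))))))
        ⟨down_meets _ _ h8 _ hs2, h9⟩
      have h11 : g j ≤ t5.top := (hub j).le.trans h5
      have h12 : s3 ≤ t5 := hs3.trans (hs2.trans hs1)
      obtain ⟨n, hn⟩ := of_mem_meets_gen (h11.trans h12.1) h10
      refine ⟨n, ?_⟩
      rwa [h12.2 _ h11] at hn
    have h8 := mk_le_mk_of_subset h7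
    rw [mk_range_eq _ hinje] at h8
    exact absurd (h8.trans_lt h6) (by simp)

end

section

/-- The relation `R_κ(θ)`, that is `(κ, κ⁺) → (κ, κ; κ⁺, θ)`: for every partition of `K × S`, where
`|K| = κ` and `|S| = κ⁺`, into two classes `Δ₀` and `Δ₁` there are `A ⊆ K` and `B ⊆ S` with
`|A| = κ`, `|B| = κ⁺` and `A × B ⊆ Δ₀`, or with `|A| = κ`, `|B| = θ` and `A × B ⊆ Δ₁`. -/
def RArrow (κ θ : Cardinal.{u}) : Prop :=
  ∀ K S : Type u, #K = κ → #S = Order.succ κ → ∀ Δ₀ Δ₁ : Set (K × S),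
    Δ₀ ∪ Δ₁ = Set.univ → Disjoint Δ₀ Δ₁ →
    (∃ (A : Set K) (B : Set S), #A = κ ∧ #B = Order.succ κ ∧ A ×ˢ B ⊆ Δ₀) ∨
    (∃ (A : Set K) (B : Set S), #A = κ ∧ #B = θ ∧ A ×ˢ B ⊆ Δ₁)

theorem polar_of_R (lam θ : Cardinal.{u}) (h : RArrow lam θ) :
    PolarArrow (Order.succ lam) (Order.succ lam) θ lam lam := by
  intro S hS Δ₀ Δ₁ h1 h2
  obtain ⟨e⟩ : #(lam.ord.ToType) ≤ #S := by
    rw [hS]
    simpa using Order.le_succ lam
  have key : ∀ (A : Set lam.ord.ToType) (B : Set S) (Δ : Set (S × S)) (α β : Cardinal.{u}),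
      #A = α → #B = β → A ×ˢ B ⊆ {p : lam.ord.ToType × S | (p.2, e p.1) ∈ Δ} →
      ∃ H₁ H₂ : Set S, #H₁ = β ∧ #H₂ = α ∧ H₁ ×ˢ H₂ ⊆ Δ := by
    intro A B Δ α β hA hB hAB
    refine ⟨B, e '' A, hB, by rw [mk_image_eq e.injective, hA], ?_⟩
    rintro ⟨b, _⟩ ⟨hb, a, ha, rfl⟩
    exact hAB (show (a, b) ∈ A ×ˢ B from ⟨ha, hb⟩)
  rcases h lam.ord.ToType S (by simp) hS {p | (p.2, e p.1) ∈ Δ₀} {p | (p.2, e p.1) ∈ Δ₁}
    (by
      ext p
      have h3 : (p.2, e p.1) ∈ Δ₀ ∪ Δ₁ := by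
        rw [h1]
        trivial
      simpa using h3)
    (by
      rw [Set.disjoint_left]
      intro p h3 h4
      exact Set.disjoint_left.1 h2 h3 h4) with ⟨A, B, hA, hB, h3⟩ | ⟨A, B, hA, hB, h3⟩
  · exact Or.inl (key A B Δ₀ _ _ hA hB h3)
  · exact Or.inr (key A B Δ₁ _ _ hA hB h3)

theorem not_R (lam : Cardinal.{u}) (h0 : ℵ₀ < lam) (h1 : lam.ord.cof = ℵ₀)
    (h3 : 2 ^ lam = Order.succ lam) (h4 : HasSubadditive lam) : ¬ RArrow lam (ℵ_ 1) :=
  fun h => not_polar lam h0 h1 h3 h4 (polar_of_R lam _ h)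

theorem exists_forcingR (lam : Cardinal.{u}) (h0 : ℵ₀ < lam) (h1 : lam.ord.cof = ℵ₀) :
    ∃ (P : Type u) (_ : Preorder P), Nonempty P ∧ #P ≤ 2 ^ lam ∧
      NoNewFunctions P lam.ord.ToType ∧
      (∀ p : P, p ∈ PowLe P lam.ord.ToType (Order.succ lam).ord.ToType) ∧
      ∀ p : P, p ∈ NotR P lam.ord.ToType (Order.succ lam).ord.ToType
        (ℵ_ 1 : Cardinal.{u}).ord.ToType := by
  obtain ⟨c, hS⟩ := exists_setup lam h0.le (h1 ▸ h0)
  obtain ⟨hc, hne⟩ := cof_facts h1
  let _ : OrderBot lam.ord.cof.ord.ToType := WellFoundedLT.toOrderBot _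
  refine ⟨Cond lam c, inferInstance, nonempty_cond hS, mk_cond_le hS, ?_, powLe hS,
    forcedR hS ?_ ?_⟩
  · intro Y R p hp
    exact decide_fun hS (by simp) R p hp
  · rw [mk_toType, card_ord, ← succ_aleph0]
    exact Order.lt_succ _
  · rw [mk_toType, card_ord, ← succ_aleph0]
    exact Order.succ_le_of_lt h0

end

end Pool.Agent.Helper980.Polar
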